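import Mathlib

set_option autoImplicit false

namespace Pool.Agent.Helper884.Act

/-- Virtual abelianness relative to a subgroup `N`, with index at most `c` and rank at most `k`. -/
def VA {P : Type} [Group P] (N : Subgroup P) (c k : ℕ) : Prop :=
  ∃ B : Subgroup P, B.index ≠ 0 ∧ B.index ≤ c ∧
    (∀ a ∈ B, ∀ b ∈ B, a * b * a⁻¹ * b⁻¹ ∈ N) ∧
    ∀ n : ℕ, 0 < n → ∃ S : Finset P, S.card ≤ n ^ k ∧
      ∀ b ∈ B, b ^ n ∈ N → ∃ s ∈ S, s⁻¹ * b ∈ N

variable {P : Type} [Group P]

lemma VA.mono {N : Subgroup P} {c k c' k' : ℕ} (h : VA N c k) (hc : c ≤ c') (hk : k ≤ k') :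
    VA N c' k' := by
  obtain ⟨B, h0, h1, h2, h3⟩ := h
  refine ⟨B, h0, h1.trans hc, h2, fun n hn => ?_⟩
  obtain ⟨S, hS, hS2⟩ := h3 n hn
  exact ⟨S, hS.trans (Nat.pow_le_pow_right hn hk), hS2⟩

lemma VA.inf {N₁ N₂ : Subgroup P} {c₁ c₂ k₁ k₂ : ℕ} (h₁ : VA N₁ c₁ k₁) (h₂ : VA N₂ c₂ k₂) :
    VA (N₁ ⊓ N₂) (c₁ * c₂) (k₁ + k₂) := by
  classical
  obtain ⟨B₁, h10, h11, h12, h13⟩ := h₁
  obtain ⟨B₂, h20, h21, h22, h23⟩ := h₂
  refine ⟨B₁ ⊓ B₂, Subgroup.index_inf_ne_zero h10 h20,
    Subgroup.index_inf_le.trans (Nat.mul_le_mul h11 h21), ?_, ?_⟩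
  · intro a ha b hb
    exact ⟨h12 a ha.1 b hb.1, h22 a ha.2 b hb.2⟩
  · intro n hn
    obtain ⟨S₁, hS1, hS1'⟩ := h13 n hn
    obtain ⟨S₂, hS2, hS2'⟩ := h23 n hn
    -- choose representatives of intersections of cosets
    let rep : P × P → P := fun st =>
      if h : ∃ b, st.1⁻¹ * b ∈ N₁ ∧ st.2⁻¹ * b ∈ N₂ then h.choose else 1
    refine ⟨(S₁ ×ˢ S₂).image rep, ?_, ?_⟩
    · refine Finset.card_image_le.trans ?_
      rw [Finset.card_product, pow_add]
      exact Nat.mul_le_mul hS1 hS2
    · intro b hb hbn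
      obtain ⟨s₁, hs1, hs1'⟩ := hS1' b hb.1 hbn.1
      obtain ⟨s₂, hs2, hs2'⟩ := hS2' b hb.2 hbn.2
      refine ⟨rep (s₁, s₂), Finset.mem_image_of_mem _ (Finset.mk_mem_product hs1 hs2), ?_⟩
      have hex : ∃ b, s₁⁻¹ * b ∈ N₁ ∧ s₂⁻¹ * b ∈ N₂ := ⟨b, hs1', hs2'⟩
      have hrep : rep (s₁, s₂) = hex.choose := dif_pos hex
      have hspec := hex.choose_spec
      rw [hrep]
      constructor
      · have := N₁.mul_mem (N₁.inv_mem hspec.1) hs1'
        simpa [mul_assoc] using this
      · have := N₂.mul_mem (N₂.inv_mem hspec.2) hs2'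
        simpa [mul_assoc] using this

lemma VA.of_subgroup {N : Subgroup P} (P₁ : Subgroup P) {c k m : ℕ}
    (h : VA (N.subgroupOf P₁) c k) (h0 : P₁.index ≠ 0) (hm : P₁.index ≤ m) :
    VA N (m * c) k := by
  classical
  obtain ⟨B, hB0, hB1, hB2, hB3⟩ := h
  have hidx : (B.map P₁.subtype).index = B.index * P₁.index := by
    rw [Subgroup.index_map_subtype]
  refine ⟨B.map P₁.subtype, ?_, ?_, ?_, ?_⟩
  · rw [hidx]; exact Nat.mul_ne_zero hB0 h0
  · rw [hidx, mul_comm]; exact Nat.mul_le_mul hm hB1
  · rintro _ ⟨a, ha, rfl⟩ _ ⟨b, hb, rfl⟩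
    exact hB2 a ha b hb
  · intro n hn
    obtain ⟨S, hS, hS'⟩ := hB3 n hn
    refine ⟨S.image P₁.subtype, Finset.card_image_le.trans hS, ?_⟩
    rintro _ ⟨b, hb, rfl⟩ hbn
    obtain ⟨s, hs, hs'⟩ := hS' b hb hbn
    exact ⟨P₁.subtype s, Finset.mem_image_of_mem _ hs, hs'⟩

lemma VA.comap {Q : Type} [Group Q] (f : P →* Q) {N : Subgroup Q} {c k : ℕ} (h : VA N c k) :
    VA (N.comap f) c k := by
  classical
  obtain ⟨B, hB0, hB1, hB2, hB3⟩ := h
  have hrel : (B.comap f).index = B.relIndex f.range := Subgroup.index_comap B f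
  refine ⟨B.comap f, ?_, ?_, ?_, ?_⟩
  · rw [hrel]; exact fun h => hB0 (Subgroup.index_eq_zero_of_relIndex_eq_zero h)
  · rw [hrel]
    refine le_trans ?_ hB1
    rw [← Subgroup.relIndex_top_right (H := B)]
    exact Subgroup.relIndex_le_of_le_right le_top (by rwa [Subgroup.relIndex_top_right])
  · intro a ha b hb
    show f (a * b * a⁻¹ * b⁻¹) ∈ N
    simpa using hB2 (f a) ha (f b) hb
  · intro n hn
    obtain ⟨S, hS, hS'⟩ := hB3 n hn
    let rep : Q → P := fun s => if h : ∃ b, s⁻¹ * f b ∈ N then h.choose else 1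
    refine ⟨S.image rep, Finset.card_image_le.trans hS, ?_⟩
    intro b hb hbn
    obtain ⟨s, hs, hs'⟩ := hS' (f b) hb (by rw [← map_pow]; exact hbn)
    refine ⟨rep s, Finset.mem_image_of_mem _ hs, ?_⟩
    have hex : ∃ b, s⁻¹ * f b ∈ N := ⟨b, hs'⟩
    have hrep : rep s = hex.choose := dif_pos hex
    rw [hrep]
    show f (_ * b) ∈ N
    rw [map_mul, map_inv]
    have := N.mul_mem (N.inv_mem hex.choose_spec) hs'
    simpa [mul_assoc] using this

lemma VA.top : VA (⊤ : Subgroup P) 1 0 := by
  refine ⟨⊤, by simp, by simp, fun _ _ _ _ => Subgroup.mem_top _, fun n _ => ⟨{1}, by simp, ?_⟩⟩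
  intro b _ _
  exact ⟨1, by simp, Subgroup.mem_top _⟩

/-- The subgroup itself as abelian part. -/
lemma VA.of_index {N : Subgroup P} {c : ℕ} (h0 : N.index ≠ 0) (hc : N.index ≤ c) :
    VA N c 0 := by
  refine ⟨N, h0, hc, ?_, fun n _ => ⟨{1}, by simp, ?_⟩⟩
  · intro a ha b hb
    exact N.mul_mem (N.mul_mem (N.mul_mem ha hb) (N.inv_mem ha)) (N.inv_mem hb)
  · intro b hb _
    exact ⟨1, by simp, by simpa using hb⟩



section Linear

variable {K : Type} [Field K]

/-- Kernel and range of `T - λ` are complementary when `T` has finite order prime to the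
characteristic. -/
lemma isCompl_ker_range {W : Type} [AddCommGroup W] [Module K W] [FiniteDimensional K W]
    (T : Module.End K W) (l : K) (m : ℕ) (hm : (m : K) ≠ 0) (hT : T ^ m = 1) :
    IsCompl (LinearMap.ker (T - l • (1 : Module.End K W)))
      (LinearMap.range (T - l • (1 : Module.End K W))) := by
  have hm0 : m ≠ 0 := by rintro rfl; simp at hm
  have hdis : Disjoint (LinearMap.ker (T - l • (1 : Module.End K W)))
      (LinearMap.range (T - l • (1 : Module.End K W))) := by
    rw [Submodule.disjoint_def]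
    intro v hv hv2
    obtain ⟨u, hu⟩ := hv2
    have h1 : T v = l • v := by
      rw [LinearMap.mem_ker] at hv
      simpa [sub_eq_zero] using hv
    have h2 : T u = l • u + v := by
      rw [← hu]; simp
    have h3 : ∀ j : ℕ, (T ^ j) v = l ^ j • v := by
      intro j
      induction j with
      | zero => simp
      | succ j ih =>
        rw [pow_succ', Module.End.mul_apply, ih, map_smul, h1, smul_smul, ← pow_succ]
    have h4 : ∀ j : ℕ, (T ^ (j+1)) u = l ^ (j+1) • u + ((j+1 : ℕ) : K) • l ^ j • v := by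
      intro j
      induction j with
      | zero => simp [h2]
      | succ j ih =>
        rw [pow_succ', Module.End.mul_apply, ih, map_add, map_smul, map_smul, map_smul, h1, h2]
        rw [smul_add, smul_smul, smul_smul, smul_smul, smul_smul, ← pow_succ]
        rw [add_assoc, ← add_smul]
        congr 2
        push_cast
        ring
    by_contra hv0
    have h5 := h3 m
    rw [hT, Module.End.one_apply] at h5
    have h6 : l ^ m = 1 := by
      have : (l ^ m - 1) • v = 0 := by rw [sub_smul, ← h5, one_smul, sub_self]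
      rcases smul_eq_zero.mp this with h | h
      · exact sub_eq_zero.mp h
      · exact absurd h hv0
    obtain ⟨j, rfl⟩ : ∃ j, m = j + 1 := ⟨m - 1, by omega⟩
    have h7 := h4 j
    rw [hT, Module.End.one_apply, h6, one_smul] at h7
    have h8 : ((j+1 : ℕ) : K) • l ^ j • v = 0 := by
      have : u + 0 = u + ((j+1 : ℕ) : K) • l ^ j • v := by rw [add_zero]; exact h7
      exact (add_left_cancel this).symm
    rw [smul_smul] at h8
    rcases smul_eq_zero.mp h8 with h | h
    · rcases mul_eq_zero.mp h with h | h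
      · exact hm h
      · have : l ≠ 0 := by rintro rfl; simp at h6
        exact pow_ne_zero _ this h
    · exact hv0 h
  refine ⟨hdis, ?_⟩
  rw [codisjoint_iff]
  apply Submodule.eq_top_of_disjoint _ _ _ hdis
  rw [add_comm]
  exact (LinearMap.finrank_range_add_finrank_ker _).ge

/-- Restriction of a representation to an invariant subspace. -/
def subRep {P W : Type} [Group P] [AddCommGroup W] [Module K W] (ρ : P →* Module.End K W)
    (U : Submodule K W) (hU : ∀ g, ∀ v ∈ U, ρ g v ∈ U) : P →* Module.End K U where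
  toFun g := (ρ g).restrict (hU g)
  map_one' := by ext v; simp
  map_mul' g h := by ext v; simp

lemma mem_ker_subRep {P W : Type} [Group P] [AddCommGroup W] [Module K W]
    (ρ : P →* Module.End K W) (U : Submodule K W) (hU : ∀ g, ∀ v ∈ U, ρ g v ∈ U) (g : P) :
    g ∈ (subRep ρ U hU).ker ↔ ∀ v ∈ U, ρ g v = v := by
  rw [MonoidHom.mem_ker]
  constructor
  · intro h v hv
    have := congrArg (fun f => (f ⟨v, hv⟩ : U).1) h
    simpa [subRep] using this
  · intro h
    ext v
    simpa [subRep] using h v.1 v.2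

lemma ker_eq_inf {P W : Type} [Group P] [AddCommGroup W] [Module K W] (ρ : P →* Module.End K W)
    (U V : Submodule K W) (h : IsCompl U V) (hU : ∀ g, ∀ v ∈ U, ρ g v ∈ U)
    (hV : ∀ g, ∀ v ∈ V, ρ g v ∈ V) :
    ρ.ker = (subRep ρ U hU).ker ⊓ (subRep ρ V hV).ker := by
  ext g
  rw [Subgroup.mem_inf, mem_ker_subRep, mem_ker_subRep, MonoidHom.mem_ker]
  constructor
  · intro h
    constructor <;> intro v _ <;> rw [h] <;> rfl
  · rintro ⟨h1, h2⟩
    ext w
    obtain ⟨u, hu, v, hv, rfl⟩ := Submodule.mem_sup.mp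
      (show w ∈ U ⊔ V by rw [h.sup_eq_top]; exact Submodule.mem_top)
    rw [map_add, h1 u hu, h2 v hv]; rfl

/-- The scalar elements. -/
def scal {P W : Type} [Group P] [AddCommGroup W] [Module K W] (ρ : P →* Module.End K W) :
    Subgroup P where
  carrier := {g | ∃ c : K, ρ g = c • (1 : Module.End K W)}
  one_mem' := ⟨1, by simp⟩
  mul_mem' := by
    rintro a b ⟨c, hc⟩ ⟨d, hd⟩
    exact ⟨c * d, by rw [map_mul, hc, hd]; simp [smul_smul, mul_comm]⟩
  inv_mem' := by
    rintro a ⟨c, hc⟩
    refine ⟨c⁻¹, ?_⟩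
    have h1 : ρ a⁻¹ * ρ a = 1 := by rw [← map_mul]; simp
    rw [hc] at h1
    by_cases hc0 : c = 0
    · rw [hc0, zero_smul, mul_zero] at h1
      have : ρ a⁻¹ = ρ a⁻¹ * 1 := (mul_one _).symm
      rw [this, ← h1, mul_zero, smul_zero]
    · have h2 : c • ρ a⁻¹ = 1 := by simpa using h1
      rw [← h2, smul_smul, inv_mul_cancel₀ hc0, one_smul]

lemma scal_normal {P W : Type} [Group P] [AddCommGroup W] [Module K W]
    (ρ : P →* Module.End K W) : (scal ρ).Normal := by
  constructor
  rintro n ⟨c, hc⟩ g
  refine ⟨c, ?_⟩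
  have h1 : ρ g * ρ g⁻¹ = 1 := by rw [← map_mul]; simp
  rw [map_mul, map_mul, hc]
  simp [h1]

/-- The centraliser in `P` of the operator of `y`. -/
def cent {P W : Type} [Group P] [AddCommGroup W] [Module K W] (ρ : P →* Module.End K W) (y : P) :
    Subgroup P where
  carrier := {g | Commute (ρ g) (ρ y)}
  one_mem' := by show Commute (ρ 1) (ρ y); rw [map_one]; exact Commute.one_left _
  mul_mem' := by
    intro a b ha hb
    show Commute (ρ (a * b)) (ρ y)
    rw [map_mul]; exact Commute.mul_left ha hb
  inv_mem' := by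
    intro a ha
    show Commute (ρ a⁻¹) (ρ y)
    have h1 : ρ a⁻¹ * ρ a = 1 := by rw [← map_mul]; simp
    have h2 : ρ a * ρ a⁻¹ = 1 := by rw [← map_mul]; simp
    have ha' : ρ a * ρ y = ρ y * ρ a := ha
    calc ρ a⁻¹ * ρ y = ρ a⁻¹ * (ρ y * ρ a) * ρ a⁻¹ := by
          rw [mul_assoc, mul_assoc, h2, mul_one]
      _ = ρ a⁻¹ * (ρ a * ρ y) * ρ a⁻¹ := by rw [ha']
      _ = ρ y * ρ a⁻¹ := by rw [← mul_assoc, h1, one_mul]

lemma index_cent_le [IsAlgClosed K] {P W : Type} [Group P] [Finite P] [AddCommGroup W] [Module K W]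
    [FiniteDimensional K W] [Nontrivial W] (ρ : P →* Module.End K W) (y : P)
    (hy : ∀ g, g * y * g⁻¹ * y⁻¹ ∈ scal ρ) :
    (cent ρ y).index ≤ Module.finrank K W := by
  classical
  choose c hc using hy
  obtain ⟨l, hl⟩ := Module.End.exists_eigenvalue (ρ y)
  obtain ⟨v, hv⟩ := hl.exists_hasEigenvector
  have hv1 : ρ y v = l • v := hv.apply_eq_smul
  have hv0 : v ≠ 0 := hv.2
  have hinv : ∀ g, ρ g * ρ g⁻¹ = 1 := fun g => by rw [← map_mul]; simp
  have hinv' : ∀ g, ρ g⁻¹ * ρ g = 1 := fun g => by rw [← map_mul]; simp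
  have hrel : ∀ g, ρ g * ρ y = c g • (ρ y * ρ g) := by
    intro g
    have h1 : g * y = (g * y * g⁻¹ * y⁻¹) * (y * g) := by group
    rw [← map_mul, h1, map_mul, hc, map_mul]
    simp
  have hgv : ∀ g, ρ g v ≠ 0 := by
    intro g h
    apply hv0
    calc v = (ρ g⁻¹ * ρ g) v := by rw [hinv']; rfl
      _ = ρ g⁻¹ (ρ g v) := rfl
      _ = 0 := by rw [h, map_zero]
  have hc0 : ∀ g, c g ≠ 0 := by
    intro g h
    have h1 := hc g
    rw [h, zero_smul] at h1
    have h2 := hinv (g * y * g⁻¹ * y⁻¹)
    rw [h1, zero_mul] at h2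
    have h3 : v = 0 := by
      have := congrArg (fun f : Module.End K W => f v) h2
      simpa using this.symm
    exact hv0 h3
  have hl0 : l ≠ 0 := by
    rintro rfl
    rw [zero_smul] at hv1
    exact hgv y hv1
  -- the eigenvalue attached to `g`
  have heig : ∀ g, (c g)⁻¹ * l ∈ (LinearMap.charpoly (ρ y)).roots.toFinset := by
    intro g
    have h1 : ρ y (ρ g v) = ((c g)⁻¹ * l) • ρ g v := by
      have h2 := congrArg (fun f : Module.End K W => f v) (hrel g)
      simp only [Module.End.mul_apply, LinearMap.smul_apply] at h2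
      rw [hv1, map_smul] at h2
      rw [mul_smul, h2, smul_smul, inv_mul_cancel₀ (hc0 g), one_smul]
    have h2 : Module.End.HasEigenvalue (ρ y) ((c g)⁻¹ * l) :=
      Module.End.hasEigenvalue_of_hasEigenvector (x := ρ g v)
        ⟨Module.End.mem_eigenspace_iff.mpr h1, hgv g⟩
    rw [Multiset.mem_toFinset, Polynomial.mem_roots (LinearMap.charpoly_monic _).ne_zero]
    exact (Module.End.hasEigenvalue_iff_isRoot_charpoly _ _).mp h2
  have hkey : ∀ g h, (c g)⁻¹ * l = (c h)⁻¹ * l → g⁻¹ * h ∈ cent ρ y := by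
    intro g h hgh
    have h1 : c g = c h := by
      have := mul_right_cancel₀ hl0 hgh
      exact inv_injective this
    have h2 := hrel g
    have h3 := hrel h
    show ρ (g⁻¹ * h) * ρ y = ρ y * ρ (g⁻¹ * h)
    rw [map_mul, mul_assoc, h3, ← h1, mul_smul_comm]
    have h4 : c g • (ρ g⁻¹ * (ρ y * ρ h)) = ρ g⁻¹ * (c g • (ρ y * ρ g)) * (ρ g⁻¹ * ρ h) := by
      rw [mul_smul_comm, smul_mul_assoc]
      congr 1
      rw [mul_assoc (ρ g⁻¹), mul_assoc (ρ y), ← mul_assoc (ρ g), hinv, one_mul]
    rw [h4, ← h2, ← mul_assoc (ρ g⁻¹), hinv', one_mul]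
  have h5 : Nat.card (P ⧸ cent ρ y) ≤ Nat.card ((LinearMap.charpoly (ρ y)).roots.toFinset) := by
    apply Nat.card_le_card_of_injective (fun q => ⟨(c q.out)⁻¹ * l, heig q.out⟩)
    intro q q' hqq
    have h6 := hkey _ _ (congrArg Subtype.val hqq)
    rw [← QuotientGroup.out_eq' q, ← QuotientGroup.out_eq' q']
    exact QuotientGroup.eq.mpr h6
  rw [Subgroup.index_eq_card]
  refine h5.trans ?_
  rw [Nat.card_eq_fintype_card, Fintype.card_coe]
  calc _ ≤ Multiset.card (LinearMap.charpoly (ρ y)).roots := Multiset.toFinset_card_le _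
    _ ≤ (LinearMap.charpoly (ρ y)).natDegree := Polynomial.card_roots' _
    _ = _ := LinearMap.charpoly_natDegree _

/-- Finite `r`-groups acting on a `d`-dimensional space in coprime characteristic are virtually
abelian, with bounds depending on `d` only. -/
theorem linVA : ∀ d : ℕ, ∃ c : ℕ, ∀ (K : Type) [Field K] [IsAlgClosed K] (r : ℕ) [Fact r.Prime],
    (r : K) ≠ 0 → ∀ (P : Type) [Group P] [Finite P], IsPGroup r P →
    ∀ (W : Type) [AddCommGroup W] [Module K W] [FiniteDimensional K W],
    Module.finrank K W = d → ∀ ρ : P →* Module.End K W, VA ρ.ker c d := by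
  intro d
  induction d using Nat.strong_induction_on with
  | _ d ih =>
    classical
    choose! cf hcf using ih
    refine ⟨d * ((∑ i ∈ Finset.range d, cf i) * (∑ i ∈ Finset.range d, cf i)) + 1, ?_⟩
    intro K _ _ r _ hr P _ _ hP W _ _ _ hW ρ
    rcases Nat.eq_zero_or_pos d with hd | hd
    · -- trivial space
      have hsub : Subsingleton W := by
        rw [hd] at hW
        exact Module.finrank_zero_iff.mp hW
      have : ρ.ker = ⊤ := by
        rw [eq_top_iff]
        intro g _
        rw [MonoidHom.mem_ker]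
        ext v
        exact Subsingleton.elim _ _
      rw [this]
      exact VA.top.mono (by omega) (by omega)
    have hnt : Nontrivial W := Module.nontrivial_of_finrank_pos (R := K) (by omega)
    by_cases hsc : scal ρ = ⊤
    · -- all elements act as scalars
      have hex : ∀ g, ∃ c : K, ρ g = c • (1 : Module.End K W) := fun g => by
        have : g ∈ scal ρ := by rw [hsc]; exact Subgroup.mem_top g
        exact this
      refine ⟨⊤, by simp, by simp, ?_, ?_⟩
      · intro a _ b _
        rw [MonoidHom.mem_ker]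
        obtain ⟨ca, hca⟩ := hex a
        have h1 : ρ a * ρ a⁻¹ = 1 := by rw [← map_mul]; simp
        have h2 : ρ b * ρ b⁻¹ = 1 := by rw [← map_mul]; simp
        rw [map_mul, map_mul, map_mul]
        have h3 : ρ a * ρ b = ρ b * ρ a := by rw [hca]; simp
        rw [h3, mul_assoc (ρ b), h1, mul_one, h2]
      · intro n hn
        let rep : K → P := fun z => if h : ∃ g, ρ g = z • (1 : Module.End K W) then h.choose else 1
        refine ⟨(Polynomial.nthRoots n (1 : K)).toFinset.image rep, ?_, ?_⟩
        · calc _ ≤ (Polynomial.nthRoots n (1 : K)).toFinset.card := Finset.card_image_le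
            _ ≤ Multiset.card (Polynomial.nthRoots n (1 : K)) := Multiset.toFinset_card_le _
            _ ≤ n := Polynomial.card_nthRoots _ _
            _ ≤ n ^ d := Nat.le_self_pow (by omega) _
        · intro b _ hbn
          obtain ⟨z, hz⟩ := hex b
          obtain ⟨v, hv⟩ := exists_ne (0 : W)
          have hzn : z ^ n = 1 := by
            rw [MonoidHom.mem_ker, map_pow, hz, smul_pow, one_pow] at hbn
            have h1 := congrArg (fun f : Module.End K W => f v) hbn
            simp only [LinearMap.smul_apply, Module.End.one_apply] at h1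
            have h2 : (z ^ n - 1) • v = 0 := by rw [sub_smul, h1, one_smul, sub_self]
            rcases smul_eq_zero.mp h2 with h | h
            · exact sub_eq_zero.mp h
            · exact absurd h hv
          refine ⟨rep z, Finset.mem_image_of_mem _ (by
            rw [Multiset.mem_toFinset, Polynomial.mem_nthRoots hn]; exact hzn), ?_⟩
          have hexz : ∃ g, ρ g = z • (1 : Module.End K W) := ⟨b, hz⟩
          have hrep : rep z = hexz.choose := dif_pos hexz
          have hspec := hexz.choose_spec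
          have h9 : ρ hexz.choose⁻¹ * ρ hexz.choose = 1 := by rw [← map_mul]; simp
          rw [hspec] at h9
          rw [hrep, MonoidHom.mem_ker, map_mul, hz]
          exact h9
    · -- some element is not a scalar
      have hnorm := scal_normal ρ
      have hntq : Nontrivial (P ⧸ scal ρ) := by
        rw [← not_subsingleton_iff_nontrivial, QuotientGroup.subsingleton_iff]
        exact hsc
      have hPq : IsPGroup r (P ⧸ scal ρ) := hP.to_quotient _
      have hcn := hPq.center_nontrivial
      obtain ⟨⟨q, hq⟩, hq1⟩ := exists_ne (1 : Subgroup.center (P ⧸ scal ρ))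
      obtain ⟨y, rfl⟩ := QuotientGroup.mk_surjective q
      have hys : y ∉ scal ρ := by
        intro h
        apply hq1
        apply Subtype.ext
        exact (QuotientGroup.eq_one_iff y).mpr h
      have hyc : ∀ g, g * y * g⁻¹ * y⁻¹ ∈ scal ρ := by
        intro g
        rw [← QuotientGroup.eq_one_iff]
        have := (Subgroup.mem_center_iff.mp hq) (g : P ⧸ scal ρ)
        rw [QuotientGroup.mk_mul, QuotientGroup.mk_mul, QuotientGroup.mk_mul, this]
        simp
      have hidx := index_cent_le ρ y hyc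
      rw [hW] at hidx
      have hidx0 : (cent ρ y).index ≠ 0 := Subgroup.FiniteIndex.index_ne_zero
      -- eigenvalue of `y`
      obtain ⟨l, hl⟩ := Module.End.exists_eigenvalue (ρ y)
      obtain ⟨N, hN⟩ := hP y
      have hNK : ((r ^ N : ℕ) : K) ≠ 0 := by
        push_cast
        exact pow_ne_zero _ hr
      have hTN : (ρ y) ^ (r ^ N) = 1 := by rw [← map_pow, hN, map_one]
      have hcompl := isCompl_ker_range (ρ y) l (r ^ N) hNK hTN
      set f : Module.End K W := ρ y - l • (1 : Module.End K W) with hf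
      have hU : ∀ g : cent ρ y, ∀ v ∈ LinearMap.ker f, (ρ.comp (cent ρ y).subtype) g v ∈
          LinearMap.ker f := by
        rintro ⟨g, hg⟩ v hv
        have hg' : ρ g * ρ y = ρ y * ρ g := hg
        rw [LinearMap.mem_ker] at hv ⊢
        have h1 : f * ρ g = ρ g * f := by
          rw [hf, sub_mul, mul_sub, ← hg']
          simp
        have h2 := congrArg (fun F : Module.End K W => F v) h1
        simp only [Module.End.mul_apply] at h2
        show f (ρ g v) = 0
        rw [h2, hv, map_zero]
      have hV : ∀ g : cent ρ y, ∀ v ∈ LinearMap.range f, (ρ.comp (cent ρ y).subtype) g v ∈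
          LinearMap.range f := by
        rintro ⟨g, hg⟩ v ⟨u, hu⟩
        have hg' : ρ g * ρ y = ρ y * ρ g := hg
        have h1 : f * ρ g = ρ g * f := by
          rw [hf, sub_mul, mul_sub, ← hg']
          simp
        have h2 := congrArg (fun F : Module.End K W => F u) h1
        simp only [Module.End.mul_apply] at h2
        exact ⟨ρ g u, by rw [h2, hu]; rfl⟩
      have hP1 : IsPGroup r (cent ρ y) := hP.to_subgroup _
      have hker0 : LinearMap.ker f ≠ ⊥ := by
        obtain ⟨v, hv⟩ := hl.exists_hasEigenvector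
        intro h
        apply hv.2
        have : v ∈ LinearMap.ker f := by
          rw [LinearMap.mem_ker, hf]
          simp [hv.apply_eq_smul]
        rw [h, Submodule.mem_bot] at this
        exact this
      have hran0 : LinearMap.range f ≠ ⊥ := by
        intro h
        apply hys
        rw [LinearMap.range_eq_bot] at h
        exact ⟨l, sub_eq_zero.mp h⟩
      have hsum : Module.finrank K (LinearMap.ker f) + Module.finrank K (LinearMap.range f) = d := by
        rw [← hW, add_comm]; exact LinearMap.finrank_range_add_finrank_ker f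
      have hk1 : 0 < Module.finrank K (LinearMap.ker f) :=
        Nat.pos_of_ne_zero (fun h => hker0 (Submodule.finrank_eq_zero.mp h))
      have hk2 : 0 < Module.finrank K (LinearMap.range f) :=
        Nat.pos_of_ne_zero (fun h => hran0 (Submodule.finrank_eq_zero.mp h))
      have hva1 := hcf _ (show Module.finrank K (LinearMap.ker f) < d by omega) K r hr (cent ρ y)
        hP1 (LinearMap.ker f) rfl (subRep (ρ.comp (cent ρ y).subtype) _ hU)
      have hva2 := hcf _ (show Module.finrank K (LinearMap.range f) < d by omega) K r hr (cent ρ y)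
        hP1 (LinearMap.range f) rfl (subRep (ρ.comp (cent ρ y).subtype) _ hV)
      have hva := hva1.inf hva2
      rw [← ker_eq_inf _ _ _ hcompl hU hV] at hva
      have hkk : (ρ.comp (cent ρ y).subtype).ker = ρ.ker.subgroupOf (cent ρ y) := rfl
      rw [hkk] at hva
      have hfin := VA.of_subgroup (cent ρ y) hva hidx0 hidx
      refine hfin.mono ?_ (by omega)
      have e1 : cf (Module.finrank K (LinearMap.ker f)) ≤ ∑ i ∈ Finset.range d, cf i :=
        Finset.single_le_sum (f := cf) (fun _ _ => Nat.zero_le _) (Finset.mem_range.mpr (by omega))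
      have e2 : cf (Module.finrank K (LinearMap.range f)) ≤ ∑ i ∈ Finset.range d, cf i :=
        Finset.single_le_sum (f := cf) (fun _ _ => Nat.zero_le _) (Finset.mem_range.mpr (by omega))
      exact (Nat.mul_le_mul_left _ (Nat.mul_le_mul e1 e2)).trans (Nat.le_succ _)

end Linear

section PGroups

/-- Finite vector spaces over prime fields. -/
lemma finVA : ∀ d : ℕ, ∃ c : ℕ, ∀ (q r : ℕ) [Fact q.Prime] [Fact r.Prime], q ≠ r →
    ∀ (P : Type) [Group P] [Finite P], IsPGroup r P →
    ∀ (A : Type) [AddCommGroup A] [Finite A] [Module (ZMod q) A], Nat.card A = q ^ d →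
    ∀ φ : P →* Module.End (ZMod q) A, VA φ.ker c d := by
  intro d
  obtain ⟨c, hc⟩ := linVA d
  refine ⟨c, ?_⟩
  intro q r _ _ hqr P _ _ hP A _ _ _ hcard φ
  have hfd : FiniteDimensional (ZMod q) A := Module.Finite.of_finite
  have hrank : Module.finrank (ZMod q) A = d := by
    have h1 := Module.natCard_eq_pow_finrank (K := ZMod q) (V := A)
    rw [hcard, Nat.card_zmod] at h1
    exact (Nat.pow_right_injective (Fact.out : q.Prime).two_le h1).symm
  let b := Module.finBasisOfFinrankEq (ZMod q) A hrank
  let K := AlgebraicClosure (ZMod q)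
  let f2 : Module.End (ZMod q) A →* Matrix (Fin d) (Fin d) (ZMod q) :=
    (LinearMap.toMatrixAlgEquiv b).toAlgHom.toRingHom.toMonoidHom
  have hf2 : Function.Injective f2 := (LinearMap.toMatrixAlgEquiv b).injective
  let f3 : Matrix (Fin d) (Fin d) (ZMod q) →* Matrix (Fin d) (Fin d) K :=
    ((algebraMap (ZMod q) K).mapMatrix).toMonoidHom
  have hf3 : Function.Injective f3 :=
    Matrix.map_injective (algebraMap (ZMod q) K).injective
  let f4 : Matrix (Fin d) (Fin d) K →* Module.End K (Fin d → K) :=
    (Matrix.toLinAlgEquiv' (R := K) (n := Fin d)).toAlgHom.toRingHom.toMonoidHom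
  have hf4 : Function.Injective f4 := (Matrix.toLinAlgEquiv' (R := K) (n := Fin d)).injective
  have hrK : (r : K) ≠ 0 := by
    intro h
    have hch : CharP K q := charP_of_injective_algebraMap (algebraMap (ZMod q) K).injective q
    rw [CharP.cast_eq_zero_iff K q r] at h
    exact hqr ((Nat.prime_dvd_prime_iff_eq Fact.out Fact.out).mp h)
  have h := hc K r hrK P hP (Fin d → K) (by simp) (f4.comp (f3.comp (f2.comp φ)))
  have hk : (f4.comp (f3.comp (f2.comp φ))).ker = φ.ker := by
    ext g
    rw [MonoidHom.mem_ker, MonoidHom.mem_ker]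
    constructor
    · intro hg
      apply hf2; apply hf3; apply hf4
      rw [map_one, map_one, map_one]
      exact hg
    · intro hg
      simp only [MonoidHom.comp_apply, hg, map_one]
  rw [hk] at h
  exact h

/-- An automorphism as a linear endomorphism. -/
def toEnd (q : ℕ) (V : Type) [CommGroup V] [Module (ZMod q) (Additive V)] :
    MulAut V →* Module.End (ZMod q) (Additive V) where
  toFun g := (MulEquiv.toAdditive g).toAddMonoidHom.toZModLinearMap q
  map_one' := by
    apply LinearMap.ext; intro v; rfl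
  map_mul' g h := by
    apply LinearMap.ext; intro v; rfl

lemma toEnd_injective (q : ℕ) (V : Type) [CommGroup V] [Module (ZMod q) (Additive V)] :
    Function.Injective (toEnd q V) := by
  intro g h hgh
  ext v
  have h1 := LinearMap.congr_fun hgh (Additive.ofMul v)
  exact congrArg Additive.toMul h1

lemma ker_toEnd_comp (q : ℕ) {P : Type} [Group P] (V : Type) [CommGroup V]
    [Module (ZMod q) (Additive V)] (φ : P →* MulAut V) : ((toEnd q V).comp φ).ker = φ.ker := by
  ext g
  rw [MonoidHom.mem_ker, MonoidHom.mem_ker]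
  constructor
  · intro hg
    apply toEnd_injective q V
    rw [map_one]
    exact hg
  · intro hg
    simp only [MonoidHom.comp_apply, hg, map_one]

/-- Elementary abelian `q`-groups. -/
lemma elabVA : ∀ d : ℕ, ∃ c : ℕ, ∀ (q r : ℕ) [Fact q.Prime] [Fact r.Prime], q ≠ r →
    ∀ (P : Type) [Group P] [Finite P], IsPGroup r P →
    ∀ (V : Type) [CommGroup V] [Finite V], (∀ v : V, v ^ q = 1) → Nat.card V = q ^ d →
    ∀ φ : P →* MulAut V, VA φ.ker c d := by
  intro d
  obtain ⟨c, hc⟩ := finVA d
  refine ⟨c, ?_⟩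
  intro q r _ _ hqr P _ _ hP V _ _ hV hcard φ
  have hq : ∀ v : Additive V, q • v = 0 := fun v => by
    show Additive.ofMul (v.toMul ^ q) = _
    rw [hV]; rfl
  have hfin : Finite (Additive V) := (inferInstance : Finite V)
  have key : ∀ [Module (ZMod q) (Additive V)], VA φ.ker c d := by
    intro hmod
    have h := hc q r hqr P hP (Additive V) hcard ((toEnd q V).comp φ)
    rw [ker_toEnd_comp] at h
    exact h
  exact @key (AddCommGroup.zmodModule hq)

/-- Restriction of an action to an invariant subgroup. -/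
def resAct {P X : Type} [Group P] [Group X] (φ : P →* MulAut X) (N : Subgroup X)
    (hN : ∀ g, ∀ x ∈ N, φ g x ∈ N) : P →* MulAut N where
  toFun g :=
    { toFun := fun x => ⟨φ g x, hN g x x.2⟩
      invFun := fun x => ⟨φ g⁻¹ x, hN g⁻¹ x x.2⟩
      left_inv := fun x => by ext; simp
      right_inv := fun x => by ext; simp
      map_mul' := fun x y => by ext; simp }
  map_one' := by ext x; simp
  map_mul' g h := by ext x; simp

lemma mem_ker_resAct {P X : Type} [Group P] [Group X] (φ : P →* MulAut X) (N : Subgroup X)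
    (hN : ∀ g, ∀ x ∈ N, φ g x ∈ N) (g : P) :
    g ∈ (resAct φ N hN).ker ↔ ∀ x ∈ N, φ g x = x := by
  rw [MonoidHom.mem_ker]
  constructor
  · intro h x hx
    exact congrArg (fun F : MulAut N => (F ⟨x, hx⟩ : N).1) h
  · intro h
    ext x
    exact h x x.2

/-- The induced action on the quotient. -/
def quotAct {P X : Type} [Group P] [Group X] (φ : P →* MulAut X) (N : Subgroup X) [N.Normal]
    (hN : ∀ g, ∀ x ∈ N, φ g x ∈ N) : P →* MulAut (X ⧸ N) where
  toFun g :=
    { toFun := QuotientGroup.map N N (φ g).toMonoidHom (fun x hx => hN g x hx)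
      invFun := QuotientGroup.map N N (φ g⁻¹).toMonoidHom (fun x hx => hN g⁻¹ x hx)
      left_inv := fun x => by
        induction x using QuotientGroup.induction_on with
        | H x => simp
      right_inv := fun x => by
        induction x using QuotientGroup.induction_on with
        | H x => simp
      map_mul' := fun x y => by simp }
  map_one' := by
    ext x
    induction x using QuotientGroup.induction_on with
    | H x => simp
  map_mul' g h := by
    ext x
    induction x using QuotientGroup.induction_on with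
    | H x => simp

lemma mem_ker_quotAct {P X : Type} [Group P] [Group X] (φ : P →* MulAut X) (N : Subgroup X)
    [N.Normal] (hN : ∀ g, ∀ x ∈ N, φ g x ∈ N) (g : P) (hg : g ∈ (quotAct φ N hN).ker) (x : X) :
    x⁻¹ * φ g x ∈ N := by
  rw [MonoidHom.mem_ker] at hg
  have h1 := congrArg (fun F : MulAut (X ⧸ N) => F (x : X ⧸ N)) hg
  have h2 : ((φ g x : X) : X ⧸ N) = (x : X ⧸ N) := h1
  exact QuotientGroup.eq.mp h2.symm

end PGroups

section PGroups2

/-- Central elements of order dividing `q`. -/
def omegaZ (q : ℕ) (X : Type) [Group X] : Subgroup X where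
  carrier := {x | x ∈ Subgroup.center X ∧ x ^ q = 1}
  one_mem' := ⟨Subgroup.one_mem _, one_pow _⟩
  mul_mem' := by
    rintro a b ⟨ha, ha'⟩ ⟨hb, hb'⟩
    refine ⟨Subgroup.mul_mem _ ha hb, ?_⟩
    have hc : Commute a b := (Subgroup.mem_center_iff.mp hb a)
    rw [hc.mul_pow, ha', hb', one_mul]
  inv_mem' := by
    rintro a ⟨ha, ha'⟩
    exact ⟨Subgroup.inv_mem _ ha, by rw [inv_pow, ha', inv_one]⟩

lemma omegaZ_normal (q : ℕ) (X : Type) [Group X] : (omegaZ q X).Normal := by
  constructor
  rintro n ⟨hn, hn'⟩ g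
  have : g * n * g⁻¹ = n := by
    rw [Subgroup.mem_center_iff.mp hn g]; simp
  rw [this]
  exact ⟨hn, hn'⟩

theorem pgroupVA : ∀ m : ℕ, ∃ c : ℕ, ∀ (q r : ℕ) [Fact q.Prime] [Fact r.Prime], q ≠ r →
    ∀ (P : Type) [Group P] [Finite P], IsPGroup r P →
    ∀ (X : Type) [Group X] [Finite X], Nat.card X = q ^ m →
    ∀ φ : P →* MulAut X, VA φ.ker c m := by
  intro m
  induction m using Nat.strong_induction_on with
  | _ m ih =>
    classical
    choose! cf hcf using ih
    choose ce hce using elabVA
    refine ⟨(∑ i ∈ Finset.range (m+1), ce i) * (∑ i ∈ Finset.range m, cf i) + 1, ?_⟩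
    intro q r _ _ hqr P _ _ hP X _ _ hX φ
    rcases Nat.eq_zero_or_pos m with hm | hm
    · have hsub : Subsingleton X := by
        rw [hm, pow_zero] at hX
        exact (Nat.card_eq_one_iff_unique.mp hX).1
      have : φ.ker = ⊤ := by
        rw [eq_top_iff]
        intro g _
        rw [MonoidHom.mem_ker]
        ext v
        exact Subsingleton.elim _ _
      rw [this]
      exact VA.top.mono (by omega) (by omega)
    have hXp : IsPGroup q X := IsPGroup.of_card hX
    have hnt : Nontrivial X := by
      rw [← Finite.one_lt_card_iff_nontrivial, hX]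
      exact Nat.one_lt_pow (by omega) (Fact.out : q.Prime).one_lt
    have hnorm := omegaZ_normal q X
    set N := omegaZ q X with hNdef
    -- `N` is not trivial
    have hNnt : Nontrivial N := by
      have hc := hXp.center_nontrivial
      have hcp : IsPGroup q (Subgroup.center X) := hXp.to_subgroup _
      obtain ⟨n, hn0, hn⟩ := hcp.nontrivial_iff_card.mp hc
      have hdvd : q ∣ Nat.card (Subgroup.center X) := by
        rw [hn]; exact dvd_pow_self q (by omega)
      obtain ⟨x, hx⟩ := exists_prime_orderOf_dvd_card' q hdvd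
      refine ⟨⟨⟨x.1, x.2, ?_⟩, 1, ?_⟩⟩
      · have := pow_orderOf_eq_one x
        rw [hx] at this
        exact congrArg Subtype.val this
      · intro h
        have h1 : x.1 = 1 := congrArg Subtype.val h
        have h2 : x = 1 := Subtype.ext h1
        rw [h2, orderOf_one] at hx
        exact (Fact.out : q.Prime).one_lt.ne hx
    have hNp : IsPGroup q N := hXp.to_subgroup _
    obtain ⟨a, ha0, ha⟩ := hNp.nontrivial_iff_card.mp hNnt
    have hcard : Nat.card (X ⧸ N) * Nat.card N = Nat.card X :=
      (Subgroup.card_eq_card_quotient_mul_card_subgroup N).symm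
    have hq1 := (Fact.out : q.Prime).one_lt
    have ham : a ≤ m := by
      have h1 : q ^ a ∣ q ^ m := by rw [← ha, ← hX, ← hcard]; exact dvd_mul_left _ _
      exact (Nat.pow_dvd_pow_iff_le_right hq1).mp h1
    have hQ : Nat.card (X ⧸ N) = q ^ (m - a) := by
      rw [ha, hX] at hcard
      have h1 : q ^ m = q ^ (m - a) * q ^ a := by rw [← pow_add]; congr 1; omega
      rw [h1] at hcard
      exact Nat.eq_of_mul_eq_mul_right (pow_pos (by omega) _) hcard
    have hinv : ∀ g, ∀ x ∈ N, φ g x ∈ N := by
      rintro g x ⟨hx, hx'⟩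
      refine ⟨?_, by rw [← map_pow, hx', map_one]⟩
      rw [Subgroup.mem_center_iff]
      intro y
      have h1 := Subgroup.mem_center_iff.mp hx ((φ g)⁻¹ y)
      have h2 := congrArg (φ g) h1
      rw [map_mul, map_mul, MulAut.apply_inv_self] at h2
      exact h2
    -- the action on `N`
    let hNc : CommGroup N := { (inferInstance : Group N) with
      mul_comm := fun x y => Subtype.ext (Subgroup.mem_center_iff.mp y.2.1 x.1) }
    have hva1 := hce a q r hqr P hP N (fun v => Subtype.ext v.2.2) ha (resAct φ N hinv)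
    have hva2 := hcf (m - a) (by omega) q r hqr P hP (X ⧸ N) hQ (quotAct φ N hinv)
    have hva := hva1.inf hva2
    have hker : (resAct φ N hinv).ker ⊓ (quotAct φ N hinv).ker = φ.ker := by
      ext g
      rw [Subgroup.mem_inf, mem_ker_resAct]
      constructor
      · rintro ⟨h1, h2⟩
        have h3 := mem_ker_quotAct φ N hinv g h2
        have h4 : ∀ j : ℕ, ∀ x, ((φ g) ^ j) x = x * (x⁻¹ * φ g x) ^ j := by
          intro j
          induction j with
          | zero => intro x; simp
          | succ j ihj =>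
            intro x
            rw [pow_succ', MulAut.mul_apply, ihj, map_mul, map_pow, h1 _ (h3 x), pow_succ']
            simp [mul_assoc]
        have h5 : (φ g) ^ q = 1 := by
          ext x
          rw [h4, (h3 x).2, mul_one]; rfl
        obtain ⟨e, he⟩ := hP g
        have h6 : (φ g) ^ (r ^ e) = 1 := by rw [← map_pow, he, map_one]
        have h7 : (φ g) ^ (Nat.gcd q (r ^ e)) = 1 := pow_gcd_eq_one.mpr ⟨h5, h6⟩
        have h8 : Nat.gcd q (r ^ e) = 1 := by
          apply Nat.Coprime.pow_right
          exact (Nat.coprime_primes Fact.out Fact.out).mpr hqr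
        rw [h8, pow_one] at h7
        exact h7
      · intro hg
        rw [MonoidHom.mem_ker] at hg
        refine ⟨?_, ?_⟩
        · intro x _
          rw [hg]; rfl
        · rw [MonoidHom.mem_ker]
          ext x
          induction x using QuotientGroup.induction_on with
          | H x =>
            show ((φ g x : X) : X ⧸ N) = x
            rw [hg]; rfl
    rw [hker] at hva
    refine hva.mono ?_ (by omega)
    have e1 : ce a ≤ ∑ i ∈ Finset.range (m+1), ce i :=
      Finset.single_le_sum (f := ce) (fun _ _ => Nat.zero_le _) (Finset.mem_range.mpr (by omega))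
    have e2 : cf (m - a) ≤ ∑ i ∈ Finset.range m, cf i :=
      Finset.single_le_sum (f := cf) (fun _ _ => Nat.zero_le _) (Finset.mem_range.mpr (by omega))
    exact (Nat.mul_le_mul e1 e2).trans (Nat.le_succ _)

end PGroups2
end Pool.Agent.Helper884.Act
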