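import Mathlib
import Pool.Agent.Helper884.Act1

set_option autoImplicit false

namespace Pool.Agent.Helper884.Act

section ActVA

open scoped Pointwise

lemma VA.finset_inf {P : Type} [Group P] {ι : Type} (s : Finset ι) (N : ι → Subgroup P)
    (C : ℕ) (m : ι → ℕ) (h : ∀ i ∈ s, VA (N i) C (m i)) :
    VA (s.inf N) (C ^ s.card) (∑ i ∈ s, m i) := by
  classical
  induction s using Finset.induction_on with
  | empty => simpa using (VA.top (P := P))
  | insert a s ha ih =>
    rw [Finset.inf_insert, Finset.card_insert_of_notMem ha, Finset.sum_insert ha, pow_succ']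
    exact (h a (Finset.mem_insert_self _ _)).inf
      (ih fun i hi => h i (Finset.mem_insert_of_mem hi))

/-- An `r`-group acting on a finite set of size not divisible by `r ^ (k+1)` has a point whose
stabilizer has index at most `r ^ k`. -/
lemma exists_small_orbit {P : Type} [Group P] [Finite P] {r : ℕ} [Fact r.Prime]
    (hP : IsPGroup r P) {Ω : Type} [MulAction P Ω] [Finite Ω] (k : ℕ)
    (h : ¬ r ^ (k+1) ∣ Nat.card Ω) :
    ∃ ω : Ω, (MulAction.stabilizer P ω).index ≤ r ^ k := by
  classical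
  by_contra hcon
  push Not at hcon
  apply h
  rw [Nat.card_congr (MulAction.selfEquivSigmaOrbits' P Ω)]
  have : Fintype (MulAction.orbitRel.Quotient P Ω) := Fintype.ofFinite _
  rw [Nat.card_sigma]
  apply Finset.dvd_sum
  intro ω _
  induction ω using Quotient.inductionOn' with
  | h x =>
    have h1 : (MulAction.orbitRel.Quotient.orbit (Quotient.mk'' x : MulAction.orbitRel.Quotient P Ω))
        = MulAction.orbit P x := MulAction.orbitRel.Quotient.orbit_mk x
    rw [h1]
    obtain ⟨n, hn⟩ := hP.card_orbit x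
    have h2 := hcon x
    rw [MulAction.index_stabilizer] at h2
    have h3 : Nat.card (MulAction.orbit P x) = (MulAction.orbit P x).ncard := rfl
    rw [← h3, hn] at h2
    rw [hn]
    apply pow_dvd_pow
    have := (Nat.pow_lt_pow_iff_right (Fact.out : r.Prime).one_lt).mp h2
    omega

lemma pow_dvd_length {r n k : ℕ} (hr : r.Prime) (hn : n ≠ 0) (hk : n.primeFactorsList.length ≤ k) :
    ¬ r ^ (k+1) ∣ n := by
  intro h
  have h1 := (Nat.primeFactorsList_sublist_of_dvd h hn).length_le
  rw [hr.primeFactorsList_pow, List.length_replicate] at h1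
  omega

/-- The pointwise stabilizer. -/
def pfix {P X : Type} [Group P] [Group X] (φ : P →* MulAut X) (Q : Subgroup X) : Subgroup P where
  carrier := {g | ∀ x ∈ Q, φ g x = x}
  one_mem' := by intro x _; simp
  mul_mem' := by
    intro a b ha hb x hx
    rw [map_mul, MulAut.mul_apply, hb x hx, ha x hx]
  inv_mem' := by
    intro a ha x hx
    have h1 : φ a⁻¹ (φ a x) = x := by rw [← MulAut.mul_apply, ← map_mul]; simp
    rwa [ha x hx] at h1

lemma card_mulAut_le (X : Type) [Group X] [Finite X] : Nat.card (MulAut X) ≤ Nat.card X ^ Nat.card X := by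
  classical
  have h1 : Nat.card (MulAut X) ≤ Nat.card (X → X) :=
    Nat.card_le_card_of_injective (fun f : MulAut X => (f : X → X)) DFunLike.coe_injective
  rwa [Nat.card_fun] at h1

lemma factorization_le_length (n q : ℕ) : n.factorization q ≤ n.primeFactorsList.length := by
  rw [← Nat.primeFactorsList_count_eq]
  exact List.count_le_length

lemma sum_factorization (n : ℕ) : ∑ q ∈ n.primeFactors, n.factorization q = n.primeFactorsList.length := by
  rw [← ArithmeticFunction.cardFactors_apply, ArithmeticFunction.cardFactors_eq_sum_factorization]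
  rfl

theorem actVA (r : ℕ) [Fact r.Prime] (k : ℕ) : ∃ c : ℕ, ∀ (X : Type) [Group X] [Finite X],
    (Nat.card X).primeFactorsList.length ≤ k →
    ∀ (P : Type) [Group P] [Finite P], IsPGroup r P → ∀ φ : P →* MulAut X, VA φ.ker c k := by
  classical
  choose cf hcf using pgroupVA
  set C := 1 + r ^ k * ((r ^ k) ^ (r ^ k) + ∑ i ∈ Finset.range (k+1), cf i) with hC
  refine ⟨C ^ k, ?_⟩
  intro X _ _ hX P _ _ hP φ
  have hr := (Fact.out : r.Prime)
  have hX0 : Nat.card X ≠ 0 := Nat.card_pos.ne'
  -- for each prime choose a Sylow subgroup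
  have hQ : ∀ q ∈ (Nat.card X).primeFactors, ∃ Q : Subgroup X,
      Nat.card Q = q ^ (Nat.card X).factorization q ∧
      VA (pfix φ Q) C ((Nat.card X).factorization q) := by
    intro q hq
    have hqp : q.Prime := Nat.prime_of_mem_primeFactors hq
    have : Fact q.Prime := ⟨hqp⟩
    let inst : MulDistribMulAction P X := MulDistribMulAction.compHom X φ
    have hsmul : ∀ (g : P) (x : X), g • x = φ g x := fun _ _ => rfl
    have hcard : Nat.card (Sylow q X) ∣ Nat.card X :=
      (Sylow.card_dvd_index (default : Sylow q X)).trans (Subgroup.index_dvd_card _)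
    obtain ⟨Q, hQ⟩ := exists_small_orbit (Ω := Sylow q X) hP k
      (fun h => pow_dvd_length hr hX0 hX (h.trans hcard))
    refine ⟨(Q : Subgroup X), Sylow.card_eq_multiplicity Q, ?_⟩
    set P₁ := MulAction.stabilizer P Q with hP₁
    have hinv : ∀ g : P₁, ∀ x ∈ (Q : Subgroup X), (φ.comp P₁.subtype) g x ∈ (Q : Subgroup X) := by
      rintro ⟨g, hg⟩ x hx
      have h1 : g • Q = Q := hg
      have h2 : g • (Q : Subgroup X) = (Q : Subgroup X) := by
        rw [← Sylow.pointwise_smul_def, h1]
      have h3 : g • x ∈ g • (Q : Subgroup X) := Subgroup.smul_mem_pointwise_smul x g _ hx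
      rw [h2] at h3
      exact h3
    have hker : (resAct (φ.comp P₁.subtype) (Q : Subgroup X) hinv).ker
        = (pfix φ (Q : Subgroup X)).subgroupOf P₁ := by
      ext g
      rw [mem_ker_resAct]
      rfl
    have hlen := factorization_le_length (Nat.card X) q
    have hva : VA ((pfix φ (Q : Subgroup X)).subgroupOf P₁)
        ((r ^ k) ^ (r ^ k) + ∑ i ∈ Finset.range (k+1), cf i) ((Nat.card X).factorization q) := by
      rw [← hker]
      by_cases hqr : q = r
      · have hle : Nat.card Q ≤ r ^ k := by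
          rw [Sylow.card_eq_multiplicity Q, hqr]
          apply Nat.pow_le_pow_right hr.pos
          rw [← hqr]; omega
        have h1 : (resAct (φ.comp P₁.subtype) (Q : Subgroup X) hinv).ker.index
            ≤ (r ^ k) ^ (r ^ k) := by
          rw [Subgroup.index_ker]
          refine (Nat.card_le_card_of_injective _ Subtype.val_injective).trans ?_
          refine (card_mulAut_le _).trans ?_
          exact (Nat.pow_le_pow_left hle _).trans
            (Nat.pow_le_pow_right (pow_pos hr.pos _) hle)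
        exact (VA.of_index Subgroup.index_ne_zero_of_finite h1).mono (by omega) (by omega)
      · have h1 := hcf ((Nat.card X).factorization q) q r hqr P₁ (hP.to_subgroup _)
          (Q : Subgroup X) (Sylow.card_eq_multiplicity Q) (resAct (φ.comp P₁.subtype) (Q : Subgroup X) hinv)
        refine h1.mono ?_ le_rfl
        have := Finset.single_le_sum (f := cf) (fun _ _ => Nat.zero_le _)
          (Finset.mem_range.mpr (show (Nat.card X).factorization q < k + 1 by omega))
        omega
    exact (hva.of_subgroup P₁ Subgroup.index_ne_zero_of_finite hQ).mono (by omega) le_rfl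
  choose! Q hQ1 hQ2 using hQ
  have hall := VA.finset_inf (Nat.card X).primeFactors (fun q => pfix φ (Q q)) C
    (fun q => (Nat.card X).factorization q) hQ2
  rw [sum_factorization] at hall
  have hker : (Nat.card X).primeFactors.inf (fun q => pfix φ (Q q)) = φ.ker := by
    ext g
    rw [Finset.inf_eq_iInf]
    simp only [Subgroup.mem_iInf]
    constructor
    · intro h
      -- the fixed subgroup
      let F : Subgroup X := 
        { carrier := {x | φ g x = x}
          one_mem' := map_one _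
          mul_mem' := by
            intro a b ha hb
            show φ g (a * b) = a * b
            rw [map_mul]
            rw [show φ g a = a from ha, show φ g b = b from hb]
          inv_mem' := by
            intro a ha
            show φ g a⁻¹ = a⁻¹
            rw [map_inv, show φ g a = a from ha] }
      have hF : F = ⊤ := by
        apply Subgroup.eq_top_of_card_eq
        apply Nat.dvd_antisymm (Subgroup.card_subgroup_dvd_card F)
        rw [← Nat.factorization_le_iff_dvd hX0 Nat.card_pos.ne']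
        intro q
        by_cases hq : q ∈ (Nat.card X).primeFactors
        · have hqp : q.Prime := Nat.prime_of_mem_primeFactors hq
          have hle : Q q ≤ F := fun x hx => h q hq x hx
          have hdvd := Subgroup.card_dvd_of_le hle
          rw [hQ1 q hq] at hdvd
          exact (hqp.pow_dvd_iff_le_factorization Nat.card_pos.ne').mp hdvd
        · rw [← Nat.support_factorization, Finsupp.notMem_support_iff] at hq
          rw [hq]; exact Nat.zero_le _
      rw [MonoidHom.mem_ker]
      ext x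
      have : x ∈ F := by rw [hF]; exact Subgroup.mem_top _
      exact this
    · intro hg q _ x _
      rw [MonoidHom.mem_ker] at hg
      rw [hg]; rfl
  rw [hker] at hall
  refine hall.mono ?_ hX
  apply Nat.pow_le_pow_right (by omega)
  rw [Nat.primeFactors]
  exact (List.toFinset_card_le _).trans hX

end ActVA


section Classes

lemma index_normalCore_le {G : Type} [Group G] [Finite G] (H : Subgroup G) :
    H.normalCore.index ≤ H.index.factorial := by
  classical
  rw [Subgroup.normalCore_eq_ker, Subgroup.index_ker]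
  refine (Nat.card_le_card_of_injective _ Subtype.val_injective).trans ?_
  rw [Nat.card_perm]
  exact le_rfl

/-- Index of the subgroup of `n`-th powers. -/
lemma card_quot_pow {Z : Type} [CommGroup Z] [Finite Z] (n : ℕ) :
    (powMonoidHom n : Z →* Z).range.index = Nat.card (powMonoidHom n : Z →* Z).ker := by
  have h1 := (powMonoidHom n : Z →* Z).range.card_mul_index
  have h2 := (powMonoidHom n : Z →* Z).ker.card_mul_index
  rw [Subgroup.index_ker] at h2
  have h3 : 0 < Nat.card (powMonoidHom n : Z →* Z).range := Nat.card_pos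
  have h4 : Nat.card (powMonoidHom n : Z →* Z).range * (powMonoidHom n : Z →* Z).range.index
      = Nat.card (powMonoidHom n : Z →* Z).range * Nat.card (powMonoidHom n : Z →* Z).ker := by
    rw [h1, ← h2, mul_comm]
  exact Nat.eq_of_mul_eq_mul_left h3 h4

/-- Elements of a finite abelian group modulo `n`-th powers. -/
lemma exists_reps_pow {Z : Type} [CommGroup Z] [Finite Z] (n m : ℕ)
    (h : Nat.card (powMonoidHom n : Z →* Z).ker ≤ m) :
    ∃ S : Finset Z, S.card ≤ m ∧ ∀ z : Z, ∃ s ∈ S, ∃ w : Z, z = s * w ^ n := by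
  classical
  let W := (powMonoidHom n : Z →* Z).range
  have : Fintype (Z ⧸ W) := Fintype.ofFinite _
  refine ⟨Finset.univ.image (fun q : Z ⧸ W => q.out), ?_, ?_⟩
  · refine Finset.card_image_le.trans ?_
    rw [Finset.card_univ, ← Nat.card_eq_fintype_card]
    refine le_trans (le_of_eq ?_) h
    exact card_quot_pow n
  · intro z
    refine ⟨(z : Z ⧸ W).out, Finset.mem_image_of_mem _ (Finset.mem_univ _), ?_⟩
    have h1 : (((z : Z ⧸ W).out : Z) : Z ⧸ W) = (z : Z ⧸ W) := Quotient.out_eq' _
    rw [QuotientGroup.eq] at h1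
    obtain ⟨w, hw⟩ := h1
    refine ⟨w, ?_⟩
    have : w ^ n = (z : Z ⧸ W).out⁻¹ * z := hw
    rw [this]; simp

/-- Conjugacy classes inside one coset of an abelian normal subgroup. -/
lemma coset_classes {P : Type} [Group P] [Finite P] (B : Subgroup P) [B.Normal]
    (hcomm : ∀ a ∈ B, ∀ b ∈ B, a * b = b * a) (n : ℕ) (S₀ : Finset P)
    (hS₀ : ∀ b ∈ B, b ^ n = 1 → b ∈ S₀) (u : P) (hu : u ^ n = 1) :
    ∃ S : Finset P, S.card ≤ S₀.card ∧
      ∀ b ∈ B, (b * u) ^ n = 1 → ∃ s ∈ S, ∃ a : P, b * u = a * s * a⁻¹ := by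
  classical
  let inst : CommGroup B := { (inferInstance : Group B) with
    mul_comm := fun x y => Subtype.ext (hcomm x x.2 y y.2) }
  let θ : B →* B := (MulAut.conjNormal u : MulAut B).toMonoidHom
  have hθ : ∀ b : B, ((θ b : B) : P) = u * b * u⁻¹ := fun b => MulAut.conjNormal_apply u b
  -- iterated norm
  let θi : ℕ → B →* B := fun i => Nat.rec (MonoidHom.id B) (fun _ f => θ.comp f) i
  have hθi : ∀ i (b : B), ((θi i b : B) : P) = u ^ i * b * (u ^ i)⁻¹ := by
    intro i
    induction i with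
    | zero => intro b; simp [θi]
    | succ i ih =>
      intro b
      have : θi (i+1) b = θ (θi i b) := rfl
      rw [this, hθ, ih, pow_succ']
      simp [mul_assoc]
  let N : ℕ → B →* B := fun j => ∏ i ∈ Finset.range j, θi i
  have hN : ∀ j (b : B), (((b : P) * u) ^ j) = (N j b : P) * u ^ j := by
    intro j
    induction j with
    | zero => intro b; simp [N]
    | succ j ih =>
      intro b
      have h1 : N (j+1) b = N j b * θi j b := by
        simp [N, Finset.prod_range_succ]
      rw [pow_succ, ih, h1, Subgroup.coe_mul, hθi, pow_succ]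
      simp [mul_assoc]
  let Z : Subgroup B := (N n).ker
  let D : B →* B := MonoidHom.id B * θ⁻¹
  have hD : ∀ a : B, D a = a * (θ a)⁻¹ := fun a => rfl
  have hDi : ∀ i (b : B), ∃ a : B, b * (θi i b)⁻¹ = D a := by
    intro i b
    refine ⟨N i b, ?_⟩
    induction i with
    | zero => simp [N, θi]
    | succ i ih =>
      have h1 : N (i+1) b = N i b * θi i b := by
        simp [N, Finset.prod_range_succ]
      have h2 : θi (i+1) b = θ (θi i b) := rfl
      rw [h1, map_mul, ← ih, hD, h2]
      simp [mul_assoc]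
  have hZ : ∀ b : B, b ∈ Z → ∃ a : B, b ^ n = D a := by
    intro b hb
    have hb' : N n b = 1 := hb
    choose a ha using fun i => hDi i b
    refine ⟨∏ i ∈ Finset.range n, a i, ?_⟩
    rw [map_prod]
    have : ∏ i ∈ Finset.range n, D (a i) = ∏ i ∈ Finset.range n, (b * (θi i b)⁻¹) :=
      Finset.prod_congr rfl fun i _ => (ha i).symm
    rw [this, Finset.prod_mul_distrib, Finset.prod_inv_distrib]
    have h3 : ∏ i ∈ Finset.range n, θi i b = N n b := by
      simp [N]
    rw [h3, hb']
    simp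
  have hker : Nat.card (powMonoidHom n : Z →* Z).ker ≤ S₀.card := by
    have hc : Nat.card S₀ = S₀.card := by
      rw [Nat.card_eq_fintype_card, Fintype.card_coe]
    rw [← hc]
    refine Nat.card_le_card_of_injective (fun z : (powMonoidHom n : Z →* Z).ker =>
      (⟨(((z : Z) : B) : P), hS₀ _ ((z : Z) : B).2 ?_⟩ : S₀)) ?_
    · have h1 : (z : Z) ^ n = 1 := z.2
      exact congrArg (fun t : Z => ((t : B) : P)) h1
    · intro z₁ z₂ h
      have h' : (((z₁ : Z) : B) : P) = (((z₂ : Z) : B) : P) :=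
        congrArg (fun s : S₀ => (s : P)) h
      exact Subtype.ext (Subtype.ext (Subtype.ext h'))
  obtain ⟨S, hS, hS2⟩ := exists_reps_pow (Z := Z) n S₀.card hker
  refine ⟨S.image (fun s : Z => ((s : B) : P) * u), Finset.card_image_le.trans hS, ?_⟩
  intro b hb hbn
  have hbZ : (⟨b, hb⟩ : B) ∈ Z := by
    show N n ⟨b, hb⟩ = 1
    apply Subtype.ext
    have := hN n ⟨b, hb⟩
    rw [hu, mul_one] at this
    rw [← this, hbn]; rfl
  obtain ⟨s, hs, w, hw⟩ := hS2 ⟨⟨b, hb⟩, hbZ⟩
  obtain ⟨a, ha⟩ := hZ w w.2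
  refine ⟨_, Finset.mem_image_of_mem _ hs, a, ?_⟩
  have h1 : b = ((s : B) : P) * (((w : B) ^ n : B) : P) := 
    congrArg (fun t : Z => ((t : B) : P)) hw
  rw [ha, hD, Subgroup.coe_mul, Subgroup.coe_inv, hθ] at h1
  have h2 := hcomm (s : B) (s : B).2 a a.2
  rw [h1]
  calc ((s : B) : P) * ((a : P) * (u * a * u⁻¹)⁻¹) * u 
      = (((s : B) : P) * (a : P)) * u * (a : P)⁻¹ := by simp [mul_assoc]
    _ = _ := by rw [h2]; simp [mul_assoc]

/-- Conjugacy classes of elements of order dividing `r ^ s`. -/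
theorem conj_classes_bound (r : ℕ) [Fact r.Prime] (c k s : ℕ) {H : Type} [Group H] [Finite H]
    (hVA : ∀ P : Subgroup H, IsPGroup r P → VA (⊥ : Subgroup P) c k) :
    ∃ S : Finset H, S.card ≤ c.factorial * (r ^ s) ^ k ∧
      ∀ u : H, u ^ (r ^ s) = 1 → ∃ t ∈ S, ∃ h : H, u = h * t * h⁻¹ := by
  classical
  obtain ⟨R⟩ : Nonempty (Sylow r H) := inferInstance
  obtain ⟨B, hB0, hB1, hB2, hB3⟩ := hVA R R.2
  have hn0 : 0 < r ^ s := pow_pos (Fact.out : r.Prime).pos _
  obtain ⟨S₀, hS₀, hS₀'⟩ := hB3 (r ^ s) hn0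
  have hcomm : ∀ a ∈ B.normalCore, ∀ b ∈ B.normalCore, a * b = b * a := by
    intro a ha b hb
    have h1 := hB2 a (B.normalCore_le ha) b (B.normalCore_le hb)
    rw [Subgroup.mem_bot, mul_inv_eq_one, mul_inv_eq_iff_eq_mul] at h1
    exact h1
  have hmem : ∀ b ∈ B.normalCore, b ^ (r ^ s) = 1 → b ∈ S₀ := by
    intro b hb hb1
    obtain ⟨t, ht, ht'⟩ := hS₀' b (B.normalCore_le hb) (by rw [Subgroup.mem_bot]; exact hb1)
    rw [Subgroup.mem_bot, inv_mul_eq_one] at ht'
    rwa [← ht']
  have : Fintype (R ⧸ B.normalCore) := Fintype.ofFinite _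
  have hcos : ∀ q : R ⧸ B.normalCore, ∃ S : Finset R, S.card ≤ S₀.card ∧
      ∀ v : R, (v : R ⧸ B.normalCore) = q → v ^ (r ^ s) = 1 → ∃ t ∈ S, ∃ a : R, v = a * t * a⁻¹ := by
    intro q
    by_cases hq : ∃ v : R, (v : R ⧸ B.normalCore) = q ∧ v ^ (r ^ s) = 1
    · obtain ⟨u, hu, hu1⟩ := hq
      obtain ⟨S, hS, hS'⟩ := coset_classes B.normalCore hcomm (r ^ s) S₀ hmem u hu1
      refine ⟨S, hS, ?_⟩
      intro v hv hv1
      have hvu : v * u⁻¹ ∈ B.normalCore := by
        have h1 : (u : R ⧸ B.normalCore) = v := by rw [hu, hv]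
        rw [QuotientGroup.eq] at h1
        have h2 := (inferInstance : B.normalCore.Normal).conj_mem _ h1 u
        simpa [mul_assoc] using h2
      have h2 := hS' (v * u⁻¹) hvu (by simpa using hv1)
      rwa [inv_mul_cancel_right] at h2
    · refine ⟨∅, by simp, ?_⟩
      intro v hv hv1
      exact (hq ⟨v, hv, hv1⟩).elim
  choose Sq hSq hSq' using hcos
  refine ⟨(Finset.univ.biUnion Sq).image (fun t : R => (t : H)), ?_, ?_⟩
  · refine Finset.card_image_le.trans ?_
    refine (Finset.card_biUnion_le_card_mul _ _ S₀.card fun q _ => hSq q).trans ?_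
    refine Nat.mul_le_mul ?_ hS₀
    rw [Finset.card_univ, ← Nat.card_eq_fintype_card]
    exact (index_normalCore_le B).trans (Nat.factorial_le hB1)
  · intro u hu
    have hup : IsPGroup r (Subgroup.zpowers u) := by
      rw [IsPGroup.iff_orderOf]
      rintro ⟨x, hx⟩
      obtain ⟨i, rfl⟩ := Subgroup.mem_zpowers_iff.mp hx
      have h1 : orderOf (⟨u ^ i, hx⟩ : Subgroup.zpowers u) ∣ r ^ s := by
        apply orderOf_dvd_of_pow_eq_one
        apply Subtype.ext
        show (u ^ i) ^ (r ^ s) = 1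
        rw [← zpow_natCast, ← zpow_mul, mul_comm, zpow_mul, zpow_natCast, hu, one_zpow]
      obtain ⟨j, _, hj⟩ := (Nat.dvd_prime_pow Fact.out).mp h1
      exact ⟨j, hj⟩
    obtain ⟨R', hR'⟩ := hup.exists_le_sylow
    obtain ⟨h, hh⟩ := MulAction.exists_smul_eq H R' R
    have h1 : h * u * h⁻¹ ∈ (R : Subgroup H) := by
      have h2 : u ∈ (R' : Subgroup H) := hR' (Subgroup.mem_zpowers u)
      rw [← hh]
      exact (Sylow.smul_def (P := R') (g := h) ▸ ⟨u, h2, rfl⟩)
    obtain ⟨t, ht, a, hta⟩ := hSq' _ ⟨h * u * h⁻¹, h1⟩ rfl (by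
      apply Subtype.ext
      show (h * u * h⁻¹) ^ (r ^ s) = 1
      rw [conj_pow, hu]; simp)
    refine ⟨t, Finset.mem_image_of_mem _ (Finset.mem_biUnion.mpr ⟨_, Finset.mem_univ _, ht⟩),
      h⁻¹ * a, ?_⟩
    have h3 : h * u * h⁻¹ = (a : H) * t * (a : H)⁻¹ := congrArg Subtype.val hta
    have h4 : u = h⁻¹ * (h * u * h⁻¹) * h := by simp [mul_assoc]
    rw [h4, h3]
    simp [mul_assoc]

end Classes

section Induction

lemma VA.of_injective {P Q : Type} [Group P] [Group Q] (f : P →* Q) (hf : Function.Injective f)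
    {c k : ℕ} (h : VA (⊥ : Subgroup Q) c k) : VA (⊥ : Subgroup P) c k := by
  have h1 := h.comap f
  have h2 : (⊥ : Subgroup Q).comap f = ⊥ := (MonoidHom.ker_eq_bot_iff f).mpr hf
  rwa [h2] at h1

/-- All `r`-subgroups of `Y` are virtually abelian of bounded rank, for every prime `r`. -/
def Good (c : ℕ → ℕ) (k : ℕ) (Y : Type) [Group Y] : Prop :=
  ∀ r : ℕ, r.Prime → ∀ P : Subgroup Y, IsPGroup r P → VA (⊥ : Subgroup P) (c r) k

lemma Good.subgroup {c : ℕ → ℕ} {k : ℕ} {Y : Type} [Group Y] (h : Good c k Y) (H : Subgroup Y) :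
    Good c k H := by
  intro r hr P hP
  have h1 := h r hr (P.map H.subtype) (hP.map _)
  exact h1.of_injective (P.equivMapOfInjective H.subtype H.subtype_injective).toMonoidHom
    (P.equivMapOfInjective H.subtype H.subtype_injective).injective

/-- Every homomorphism `G →* Y` is conjugate to one of at most `N` homomorphisms. -/
def Cov (G Y : Type) [Group G] [Group Y] (N : ℕ) : Prop :=
  ∃ S : Finset (G →* Y), S.card ≤ N ∧
    ∀ ρ : G →* Y, ∃ σ ∈ S, ∃ y : Y, ∀ g, ρ g = y * σ g * y⁻¹

lemma Cov.congr {G G' Y : Type} [Group G] [Group G'] [Group Y] {N : ℕ} (e : G' ≃* G)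
    (h : Cov G Y N) : Cov G' Y N := by
  classical
  obtain ⟨S, hS, hS'⟩ := h
  refine ⟨S.image (fun σ => σ.comp e.toMonoidHom), Finset.card_image_le.trans hS, ?_⟩
  intro ρ
  obtain ⟨σ, hσ, y, hy⟩ := hS' (ρ.comp e.symm.toMonoidHom)
  refine ⟨_, Finset.mem_image_of_mem _ hσ, y, ?_⟩
  intro g
  have := hy (e g)
  simpa using this

lemma Cov.mono {G Y : Type} [Group G] [Group Y] {N N' : ℕ} (h : Cov G Y N) (hN : N ≤ N') :
    Cov G Y N' := by
  obtain ⟨S, hS, hS'⟩ := h
  exact ⟨S, hS.trans hN, hS'⟩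

/-- The extension step. -/
lemma cov_step {G : Type} [Group G] [Finite G] (M : Subgroup G) [hMn : M.Normal] (g : G) (r s : ℕ)
    (hr : r.Prime) (hgen : M ⊔ Subgroup.zpowers g = ⊤) (hg : g ^ (r ^ s) = 1)
    (c : ℕ → ℕ) (k N : ℕ) (Y : Type) [Group Y] [Finite Y] (hY : Good c k Y) (hN : Cov M Y N) :
    Cov G Y (N * ((c r).factorial * (r ^ s) ^ k)) := by
    classical
    have hrf : Fact r.Prime := ⟨hr⟩
    obtain ⟨SM, hSM, hSM'⟩ := hN
    -- for every σ a finite set T σ
    have hT : ∀ σ : M →* Y, ∃ T : Finset Y, T.card ≤ (c r).factorial * (r ^ s) ^ k ∧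
        ∀ y : Y, y ^ (r ^ s) = 1 → (∀ m : M, y * σ m * y⁻¹ = σ (MulAut.conjNormal g m)) →
          ∃ t ∈ T, ∃ z : Y, (∀ m : M, z * σ m * z⁻¹ = σ m) ∧ y = z * t * z⁻¹ := by
      intro σ
      let H : Subgroup Y :=
        { carrier := {y | ∃ i : ℤ, ∀ m : M, y * σ m * y⁻¹ = σ (MulAut.conjNormal (g ^ i) m)}
          one_mem' := ⟨0, fun m => by simp⟩
          mul_mem' := by
            rintro a b ⟨i, hi⟩ ⟨j, hj⟩
            refine ⟨i + j, fun m => ?_⟩
            have h1 : a * b * σ m * (a * b)⁻¹ = a * (b * σ m * b⁻¹) * a⁻¹ := by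
              simp [mul_assoc]
            rw [h1, hj, hi, zpow_add, map_mul, MulAut.mul_apply]
          inv_mem' := by
            rintro a ⟨i, hi⟩
            refine ⟨-i, fun m => ?_⟩
            have h1 := hi (MulAut.conjNormal (g ^ (-i)) m)
            rw [← MulAut.mul_apply, ← map_mul, ← zpow_add, add_neg_cancel, zpow_zero, map_one,
              MulAut.one_apply] at h1
            rw [← h1]
            simp [mul_assoc] }
      have hH : ∀ y, y ∈ H ↔ ∃ i : ℤ, ∀ m : M, y * σ m * y⁻¹ = σ (MulAut.conjNormal (g ^ i) m) :=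
        fun _ => Iff.rfl
      obtain ⟨T, hT, hT'⟩ := conj_classes_bound r (c r) k s (H := H)
        (fun P hP => (hY.subgroup H) r hr P hP)
      refine ⟨T.image (fun t : H => (t : Y)), Finset.card_image_le.trans hT, ?_⟩
      intro y hy hyσ
      have hyH : y ∈ H := ⟨1, by simpa using hyσ⟩
      obtain ⟨t, ht, h, hht⟩ := hT' ⟨y, hyH⟩ (Subtype.ext hy)
      have hht' : y = (h : Y) * t * (h : Y)⁻¹ := congrArg Subtype.val hht
      obtain ⟨i, hi⟩ := (hH h).mp h.2
      -- exponent rules
      have hmul : ∀ (a b : Y) (i j : ℤ), (∀ m : M, a * σ m * a⁻¹ = σ (MulAut.conjNormal (g ^ i) m)) →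
          (∀ m : M, b * σ m * b⁻¹ = σ (MulAut.conjNormal (g ^ j) m)) →
          (∀ m : M, (a * b) * σ m * (a * b)⁻¹ = σ (MulAut.conjNormal (g ^ (i + j)) m)) := by
        intro a b i j hi hj m
        have h1 : a * b * σ m * (a * b)⁻¹ = a * (b * σ m * b⁻¹) * a⁻¹ := by
          simp [mul_assoc]
        rw [h1, hj, hi, zpow_add, map_mul, MulAut.mul_apply]
      have hinv : ∀ (a : Y) (i : ℤ), (∀ m : M, a * σ m * a⁻¹ = σ (MulAut.conjNormal (g ^ i) m)) →
          (∀ m : M, a⁻¹ * σ m * (a⁻¹)⁻¹ = σ (MulAut.conjNormal (g ^ (-i)) m)) := by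
        intro a i hi m
        have h1 := hi (MulAut.conjNormal (g ^ (-i)) m)
        rw [← MulAut.mul_apply, ← map_mul, ← zpow_add, add_neg_cancel, zpow_zero, map_one,
          MulAut.one_apply] at h1
        rw [← h1]
        simp [mul_assoc]
      have hy1 : ∀ m : M, y * σ m * y⁻¹ = σ (MulAut.conjNormal (g ^ (1:ℤ)) m) := by simpa using hyσ
      have ht1 : ∀ m : M, (t : Y) * σ m * (t : Y)⁻¹ = σ (MulAut.conjNormal (g ^ (1:ℤ)) m) := by
        have h1 := hmul _ _ _ _ (hmul _ _ _ _ (hinv _ _ hi) hy1) hi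
        have h2 : (h : Y)⁻¹ * y * h = t := by rw [hht']; simp [mul_assoc]
        rw [h2] at h1
        have h3 : -i + 1 + i = 1 := by ring
        rwa [h3] at h1
      have htz : ∀ j : ℕ, ∀ m : M, (t : Y) ^ j * σ m * ((t : Y) ^ j)⁻¹
          = σ (MulAut.conjNormal (g ^ (j : ℤ)) m) := by
        intro j
        induction j with
        | zero => intro m; simp
        | succ j ihj =>
          have h1 := hmul _ _ _ _ ihj ht1
          rw [← pow_succ] at h1
          simpa using h1
      have htz' : ∀ j : ℤ, ∀ m : M, (t : Y) ^ j * σ m * ((t : Y) ^ j)⁻¹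
          = σ (MulAut.conjNormal (g ^ j) m) := by
        intro j
        obtain ⟨a, rfl | rfl⟩ := j.eq_nat_or_neg
        · simpa using htz a
        · have h1 := hinv _ _ (htz a)
          simpa using h1
      refine ⟨t, Finset.mem_image_of_mem _ ht, (h : Y) * (t : Y) ^ (-i), ?_, ?_⟩
      · have h1 := hmul _ _ _ _ hi (htz' (-i))
        simpa using h1
      · rw [hht']
        have h2 : (t : Y) ^ (-i) * t = t * (t : Y) ^ (-i) := (Commute.refl (t : Y)).zpow_left (-i)
        calc (h : Y) * t * (h : Y)⁻¹ = h * (t * (t : Y) ^ (-i)) * ((t : Y) ^ (-i))⁻¹ * (h : Y)⁻¹ := by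
              simp [mul_assoc]
          _ = _ := by rw [← h2]; simp [mul_assoc]
    choose T hTc hT' using hT
    let ext : (M →* Y) → Y → (G →* Y) := fun σ t =>
      if h : ∃ ρ : G →* Y, (∀ m : M, ρ m = σ m) ∧ ρ g = t then h.choose else 1
    refine ⟨SM.biUnion (fun σ => (T σ).image (ext σ)), ?_, ?_⟩
    · refine (Finset.card_biUnion_le_card_mul _ _ ((c r).factorial * (r ^ s) ^ k)
        (fun σ _ => Finset.card_image_le.trans (hTc σ))).trans ?_
      exact Nat.mul_le_mul_right _ hSM
    · intro ρ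
      obtain ⟨σ, hσ, y, hy⟩ := hSM' (ρ.comp M.subtype)
      -- conjugate ρ
      let ρ₁ : G →* Y := (MulAut.conj y⁻¹).toMonoidHom.comp ρ
      have hρ₁ : ∀ x, ρ₁ x = y⁻¹ * ρ x * y := by
        intro x
        show MulAut.conj y⁻¹ (ρ x) = _
        rw [MulAut.conj_apply]; simp
      have hρ₁M : ∀ m : M, ρ₁ m = σ m := by
        intro m
        rw [hρ₁]
        have := hy m
        have h2 : ρ m = y * σ m * y⁻¹ := this
        rw [h2]; simp [mul_assoc]
      obtain ⟨t, ht, z, hz, hzt⟩ := hT' σ (ρ₁ g) (by rw [← map_pow, hg, map_one]) (by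
        intro m
        rw [← hρ₁M, ← hρ₁M, MulAut.conjNormal_apply, map_mul, map_mul, map_inv])
      have hex : ∃ ρ : G →* Y, (∀ m : M, ρ m = σ m) ∧ ρ g = t := by
        refine ⟨(MulAut.conj z⁻¹).toMonoidHom.comp ρ₁, ?_, ?_⟩
        · intro m
          show MulAut.conj z⁻¹ (ρ₁ m) = _
          rw [MulAut.conj_apply, hρ₁M]
          have := hz m
          calc z⁻¹ * σ m * (z⁻¹)⁻¹ = z⁻¹ * (z * σ m * z⁻¹) * (z⁻¹)⁻¹ := by rw [this]
            _ = σ m := by simp [mul_assoc]
        · show MulAut.conj z⁻¹ (ρ₁ g) = _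
          rw [MulAut.conj_apply, hzt]; simp [mul_assoc]
      have hext : ext σ t = hex.choose := dif_pos hex
      have hspec := hex.choose_spec
      rw [← hext] at hspec
      refine ⟨ext σ t, Finset.mem_biUnion.mpr ⟨σ, hσ, Finset.mem_image_of_mem _ ht⟩, y * z, ?_⟩
      -- the two homs agree on M and g
      let ρ₂ : G →* Y := (MulAut.conj z).toMonoidHom.comp (ext σ t)
      have hρ₂ : ∀ x, ρ₂ x = z * ext σ t x * z⁻¹ := fun x => MulAut.conj_apply _ _
      have heq : ρ₁ = ρ₂ := by
        have hle : M ⊔ Subgroup.zpowers g ≤ MonoidHom.eqLocus ρ₁ ρ₂ := by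
          rw [sup_le_iff]
          constructor
          · intro m hm
            show ρ₁ m = ρ₂ m
            have h1 := hρ₁M ⟨m, hm⟩
            have h2 := hspec.1 ⟨m, hm⟩
            have h3 := hz ⟨m, hm⟩
            rw [hρ₂]
            rw [show ext σ t m = σ ⟨m, hm⟩ from h2, show ρ₁ m = σ ⟨m, hm⟩ from h1, h3]
          · rw [Subgroup.zpowers_le]
            show ρ₁ g = ρ₂ g
            rw [hρ₂, hspec.2, hzt]
        rw [hgen] at hle
        ext x
        exact hle (Subgroup.mem_top x)
      intro x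
      have h1 : ρ x = y * ρ₁ x * y⁻¹ := by rw [hρ₁]; simp [mul_assoc]
      rw [h1, heq, hρ₂]
      simp [mul_assoc]


/-- A finite group with a normal subgroup of solvable nontrivial quotient has a maximal normal
subgroup containing it and an element of prime power order outside it. -/
lemma exists_step (G : Type) [Group G] [Finite G] (M : Subgroup G) [M.Normal]
    (hsolv : Group.IsSolvable (G ⧸ M)) (hM : M ≠ ⊤) :
    ∃ (L : Subgroup G) (_ : L.Normal) (g : G) (r s : ℕ), r.Prime ∧ M ≤ L ∧ L ≠ ⊤ ∧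
      L ⊔ Subgroup.zpowers g = ⊤ ∧ g ^ (r ^ s) = 1 := by
  have hnt : Nontrivial (G ⧸ M) := QuotientGroup.nontrivial_iff.mpr hM
  have hc : commutator (G ⧸ M) ≠ ⊤ :=
    (Group.IsSolvable.commutator_lt_top_of_nontrivial (G ⧸ M)).ne
  have hc' : (commutator (G ⧸ M)).comap (QuotientGroup.mk' M) ≠ ⊤ := by
    intro h
    apply hc
    rw [← Subgroup.comap_top (QuotientGroup.mk' M)] at h
    exact Subgroup.comap_injective (QuotientGroup.mk'_surjective M) h
  obtain h | ⟨L, hL, hcL⟩ := eq_top_or_exists_le_coatom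
    ((commutator (G ⧸ M)).comap (QuotientGroup.mk' M))
  · exact (hc' h).elim
  have hML : M ≤ L := by
    refine le_trans ?_ hcL
    intro m hm
    rw [Subgroup.mem_comap, QuotientGroup.mk'_apply, (QuotientGroup.eq_one_iff m).mpr hm]
    exact Subgroup.one_mem _
  have hcomm : commutator G ≤ L := by
    refine le_trans ?_ hcL
    rw [← Subgroup.map_le_iff_le_comap, commutator_def, Subgroup.map_commutator, commutator_def]
    exact Subgroup.commutator_mono le_top le_top
  have hLn : L.Normal := Subgroup.Normal.of_commutator_le G hcomm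
  have hLi : L.index ≠ 1 := fun h => hL.1 (Subgroup.index_eq_one.mp h)
  set r := L.index.minFac with hr
  have hrp : r.Prime := Nat.minFac_prime hLi
  have : Fact r.Prime := ⟨hrp⟩
  obtain ⟨R⟩ : Nonempty (Sylow r G) := inferInstance
  have hRL : ¬ (R : Subgroup G) ≤ L := by
    intro hle
    exact R.not_dvd_index ((Nat.minFac_dvd L.index).trans (Subgroup.index_dvd_of_le hle))
  obtain ⟨g, hgR, hgL⟩ := SetLike.not_le_iff_exists.mp hRL
  obtain ⟨s, hs⟩ := R.2 ⟨g, hgR⟩
  refine ⟨L, hLn, g, r, s, hrp, hML, hL.1, ?_, congrArg Subtype.val hs⟩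
  apply hL.2
  refine lt_of_le_of_ne le_sup_left ?_
  intro h
  apply hgL
  rw [h]
  exact Subgroup.mem_sup_right (Subgroup.mem_zpowers g)

theorem cov_ext : ∀ (n : ℕ) (G : Type) [Group G] [Finite G] (M : Subgroup G) [M.Normal],
    Group.IsSolvable (G ⧸ M) → Nat.card G = n → ∀ (c : ℕ → ℕ) (k : ℕ), ∃ K : ℕ,
      ∀ (Y : Type) [Group Y] [Finite Y], Good c k Y → ∀ N : ℕ, Cov M Y N → Cov G Y (N * K) := by
  intro n
  induction n using Nat.strong_induction_on with
  | _ n ih =>
    intro G _ _ M _ hsolv hn c k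
    by_cases hM : M = ⊤
    · refine ⟨1, fun Y _ _ _ N h => ?_⟩
      rw [mul_one]
      subst hM
      exact h.congr Subgroup.topEquiv.symm
    obtain ⟨L, hLn, g, r, s, hr, hML, hLtop, hgen, hg⟩ := exists_step G M hsolv hM
    have hcard : Nat.card L < n := by
      rw [← hn]
      refine lt_of_le_of_ne (Nat.card_le_card_of_injective _ L.subtype_injective) ?_
      intro h
      exact hLtop (Subgroup.eq_top_of_card_eq L h)
    have hsolv' : Group.IsSolvable (L ⧸ M.subgroupOf L) := by
      let f : L →* (G ⧸ M) := (QuotientGroup.mk' M).comp L.subtype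
      have hker : f.ker = M.subgroupOf L := by
        ext x
        rw [MonoidHom.mem_ker, Subgroup.mem_subgroupOf]
        exact QuotientGroup.eq_one_iff (x : G)
      have e : (L ⧸ M.subgroupOf L) ≃* f.range :=
        (QuotientGroup.quotientMulEquivOfEq hker.symm).trans (QuotientGroup.quotientKerEquivRange f)
      have : Group.IsSolvable f.range := inferInstance
      exact Group.isSolvable_of_isSolvable_injective (f := e.toMonoidHom) e.injective
    obtain ⟨K, hK⟩ := ih (Nat.card L) hcard L (M.subgroupOf L) hsolv' rfl c k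
    refine ⟨K * ((c r).factorial * (r ^ s) ^ k), ?_⟩
    intro Y _ _ hY N hN
    rw [← mul_assoc]
    exact cov_step L g r s hr hgen hg c k (N * K) Y hY
      (hK Y hY N (hN.congr (Subgroup.subgroupOfEquivOfLe hML)))

end Induction

section Final

lemma quot_le_of_cov {G Y : Type} [Group G] [Group Y] {N : ℕ} (h : Cov G Y N) :
    Nat.card (Quot (fun φ ψ : G →* Y => ∃ a : Y, ∀ g : G, ψ g = a * φ g * a⁻¹)) ≤ N := by
  classical
  obtain ⟨S, hS, hS'⟩ := h
  refine le_trans ?_ hS
  have hc : Nat.card S = S.card := by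
    rw [Nat.card_eq_fintype_card, Fintype.card_coe]
  rw [← hc]
  refine Nat.card_le_card_of_surjective
    (fun σ : S => Quot.mk (fun φ ψ : G →* Y => ∃ a : Y, ∀ g : G, ψ g = a * φ g * a⁻¹) σ.1) ?_
  intro q
  induction q using Quot.ind with
  | mk ρ =>
    obtain ⟨σ, hσ, y, hy⟩ := hS' ρ
    exact ⟨⟨σ, hσ⟩, Quot.sound ⟨y, hy⟩⟩

lemma cov_of_quot_le {G Y : Type} [Group G] [Group Y] [Finite G] [Finite Y] {N : ℕ}
    (h : Nat.card (Quot (fun φ ψ : G →* Y => ∃ a : Y, ∀ g : G, ψ g = a * φ g * a⁻¹)) ≤ N) :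
    Cov G Y N := by
  classical
  set R : (G →* Y) → (G →* Y) → Prop := fun φ ψ => ∃ a : Y, ∀ g : G, ψ g = a * φ g * a⁻¹ with hR
  have hequiv : Equivalence R := by
    constructor
    · intro φ; exact ⟨1, fun g => by simp⟩
    · rintro φ ψ ⟨a, ha⟩
      exact ⟨a⁻¹, fun g => by rw [ha]; simp [mul_assoc]⟩
    · rintro φ ψ χ ⟨a, ha⟩ ⟨b, hb⟩
      exact ⟨b * a, fun g => by rw [hb, ha]; simp [mul_assoc]⟩
  have hfin : Finite (G →* Y) := Finite.of_injective (fun f : G →* Y => (f : G → Y)) DFunLike.coe_injective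
  have : Finite (Quot R) := Finite.of_surjective (Quot.mk R) Quot.mk_surjective
  have : Fintype (Quot R) := Fintype.ofFinite _
  refine ⟨Finset.univ.image (fun q : Quot R => q.out), ?_, ?_⟩
  · refine Finset.card_image_le.trans ?_
    rw [Finset.card_univ, ← Nat.card_eq_fintype_card]
    exact h
  · intro ρ
    refine ⟨(Quot.mk R ρ).out, Finset.mem_image_of_mem _ (Finset.mem_univ _), ?_⟩
    have h1 : Quot.mk R ((Quot.mk R ρ).out) = Quot.mk R ρ := Quot.out_eq _
    have h2 := Quot.eqvGen_exact h1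
    rw [hequiv.eqvGen_iff] at h2
    exact h2

lemma exists_good (k : ℕ) : ∃ c : ℕ → ℕ, ∀ (X : Type) [Group X] [Finite X],
    (Nat.card X).primeFactorsList.length = k → Good c k (MulAut X) := by
  classical
  have h : ∀ r : ℕ, ∃ c : ℕ, r.Prime → ∀ (X : Type) [Group X] [Finite X],
    (Nat.card X).primeFactorsList.length ≤ k →
    ∀ (P : Type) [Group P] [Finite P], IsPGroup r P → ∀ φ : P →* MulAut X, VA φ.ker c k := by
    intro r
    by_cases hr : r.Prime
    · have : Fact r.Prime := ⟨hr⟩
      obtain ⟨c, hc⟩ := actVA r k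
      exact ⟨c, fun _ => hc⟩
    · exact ⟨0, fun h => (hr h).elim⟩
  choose c hc using h
  refine ⟨c, ?_⟩
  intro X _ _ hX r hr P hP
  have hker : P.subtype.ker = ⊥ := P.ker_subtype
  have h1 := hc r hr X hX.le P hP P.subtype
  rwa [hker] at h1

end Final

end Pool.Agent.Helper884.Act
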