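import Mathlib

set_option autoImplicit false
open Set

namespace Pool.Agent.Helper884.Sparse

/-- Finite histories: a root, extended by labels and supports. -/
inductive Pt (X M : Type) : Type
  | root : X → Pt X M
  | ext : Pt X M → M → Set X → Pt X M

variable {X M : Type}

/-- The support of a history. -/
def supp : Pt X M → Set X
  | .root x => {x}
  | .ext _ _ S => S

/-- The combinatorial data: finite blocks, and a family of selectors. -/
structure Frame (X M : Type) [LinearOrder M] where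
  blk : X → ℕ
  t : M → ℕ → X
  Q : ℝ
  fin : ∀ n, {x | blk x = n}.Finite
  blk_t : ∀ β n, blk (t β n) = n
  ad : ∀ β γ, β ≠ γ → ∃ m, ∀ n, m ≤ n → t β n ≠ t γ n
  Qpos : 0 < Q
  bdd : ∀ q, q < Q → ∀ S : Set X, (∀ n : ℕ, ((S ∩ {x | blk x = n}).ncard : ℝ) ≤ 2 ^ (q * n)) →
    ∃ γ, ∀ β m, (∀ n, m ≤ n → t β n ∈ S) → β < γ
  room : ∀ q, q < Q → ∀ S : Set X, (∀ n : ℕ, ((S ∩ {x | blk x = n}).ncard : ℝ) ≤ 2 ^ (q * n)) →
    ∀ n, 1 ≤ n → ∃ v, blk v = n ∧ v ∉ S

namespace Frame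

variable [LinearOrder M] (F : Frame X M)

/-- Points in high blocks. -/
def above (l : ℕ) : Set X := {x | l ≤ F.blk x}

/-- The first block in which `S` adds something to the support of `z`. -/
noncomputable def kk (z : Pt X M) (S : Set X) : ℕ := sInf (F.blk '' (S \ supp z))

/-- The selector of `β` lies in `S` from block `m` on. -/
def Cap (β : M) (S : Set X) (m : ℕ) : Prop := ∀ n, m ≤ n → F.t β n ∈ S

/-- `y` is an initial part of `τ` and all further steps happen in blocks at least `m`. -/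
inductive Anc (m : ℕ) : Pt X M → Pt X M → Prop
  | refl (y : Pt X M) : Anc m y y
  | step {y τ : Pt X M} {β : M} {S : Set X} : Anc m y τ → m ≤ F.kk τ S → Anc m y (.ext τ β S)

/-- `τ` passes through the column `(z, β)`, later steps being in blocks at least `l`. -/
def Pass (z : Pt X M) (β : M) (l : ℕ) (τ : Pt X M) : Prop := ∃ S, F.Anc l (.ext z β S) τ

/-- The neighbourhoods. -/
def N : Pt X M → ℕ → Pt X M → Prop
  | .root x, l, τ => supp τ ⊆ {x} ∪ F.above l
  | .ext z β S, l, τ => N z (min (F.kk z S) l) τ ∧ supp τ ⊆ S ∪ F.above l ∧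
      (¬ F.Cap β (supp τ) l ∨ F.Pass z β l τ)

/-- Valid histories. -/
def Valid : Pt X M → Prop
  | .root _ => True
  | .ext z β S => Valid z ∧ supp z ⊆ S ∧ (S \ supp z).Nonempty ∧ F.Cap β S (F.kk z S) ∧
      (∀ γ m, F.Cap γ S m → γ ≤ β) ∧ ∀ m, ¬ F.Cap β (supp z) m

/-- Sets of size at most `2 ^ (q n)` in the block `n`. -/
def Small (q : ℝ) (S : Set X) : Prop :=
  ∀ n : ℕ, ((S ∩ {x | F.blk x = n}).ncard : ℝ) ≤ 2 ^ (q * n)

variable {F}

theorem above_anti {l l' : ℕ} (h : l ≤ l') : F.above l' ⊆ F.above l :=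
  fun _ hx => le_trans h hx

theorem Cap.mono {β : M} {S S' : Set X} {m m' : ℕ} (h : F.Cap β S m) (hS : S ⊆ S')
    (hm : m ≤ m') : F.Cap β S' m' := fun n hn => hS (h n (hm.trans hn))

theorem kk_le {z : Pt X M} {S : Set X} {x : X} (hx : x ∈ S) (hz : x ∉ supp z) :
    F.kk z S ≤ F.blk x := Nat.sInf_le ⟨x, ⟨hx, hz⟩, rfl⟩

theorem exists_kk {z : Pt X M} {S : Set X} (h : (S \ supp z).Nonempty) :
    ∃ x ∈ S, x ∉ supp z ∧ F.blk x = F.kk z S := by
  obtain ⟨x, ⟨hx, hz⟩, hb⟩ := Nat.sInf_mem (h.image F.blk)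
  exact ⟨x, hx, hz, hb⟩

theorem subset_kk (z : Pt X M) (S : Set X) : S ⊆ supp z ∪ F.above (F.kk z S) := by
  intro x hx
  by_cases hz : x ∈ supp z
  · exact Or.inl hz
  · exact Or.inr (kk_le hx hz)

theorem Anc.mono {m m' : ℕ} (h : m ≤ m') {y τ : Pt X M} (ha : F.Anc m' y τ) : F.Anc m y τ := by
  induction ha with
  | refl => exact .refl _
  | step _ hk ih => exact .step ih (h.trans hk)

theorem Anc.supp_subset {m : ℕ} {y τ : Pt X M} (ha : F.Anc m y τ) :
    supp τ ⊆ supp y ∪ F.above m := by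
  induction ha with
  | refl => exact subset_union_left
  | step _ hk ih =>
    rename_i τ β S _
    intro x hx
    rcases subset_kk (F := F) τ S hx with h | h
    · exact ih h
    · exact Or.inr (above_anti hk h)

theorem Anc.of_ext {m : ℕ} {z τ : Pt X M} {β : M} {S : Set X} (ha : F.Anc m (.ext z β S) τ) :
    F.Anc (min (F.kk z S) m) z τ := by
  generalize hy : Pt.ext z β S = y at ha
  induction ha with
  | refl => subst hy; exact .step (.refl _) (min_le_left _ _)
  | step _ hk ih => exact .step ih ((min_le_right _ _).trans hk)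

theorem Pass.mono {z τ : Pt X M} {β : M} {l l' : ℕ} (h : l ≤ l') (hp : F.Pass z β l' τ) :
    F.Pass z β l τ := by
  obtain ⟨S, hS⟩ := hp
  exact ⟨S, hS.mono h⟩

theorem N_mono {z : Pt X M} : ∀ {l l' : ℕ} {τ : Pt X M}, l ≤ l' → F.N z l' τ → F.N z l τ := by
  induction z with
  | root x =>
    intro l l' τ h hN
    exact hN.trans (union_subset_union_right _ (above_anti h))
  | ext z β S ih =>
    intro l l' τ h hN
    obtain ⟨h1, h2, h3⟩ := hN
    refine ⟨ih (min_le_min_left _ h) h1, h2.trans (union_subset_union_right _ (above_anti h)), ?_⟩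
    rcases h3 with h3 | h3
    · exact Or.inl fun hc => h3 (hc.mono subset_rfl h)
    · exact Or.inr (h3.mono h)

theorem N_supp {z : Pt X M} {l : ℕ} {τ : Pt X M} (h : F.N z l τ) :
    supp τ ⊆ supp z ∪ F.above l := by
  cases z with
  | root x => exact h
  | ext z β S => exact h.2.1

theorem Anc.N {y : Pt X M} : ∀ {m : ℕ} {τ : Pt X M}, F.Anc m y τ → F.N y m τ := by
  induction y with
  | root x => intro m τ h; exact h.supp_subset
  | ext z β S ih =>
    intro m τ h
    exact ⟨ih h.of_ext, h.supp_subset, Or.inr ⟨S, h⟩⟩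

theorem N_refl (z : Pt X M) (l : ℕ) : F.N z l z := (Anc.refl z).N

theorem Anc.cross {l : ℕ} {z τ σ : Pt X M} {β : M} {S : Set X}
    (ha : F.Anc l (.ext z β S) τ) (hN : F.N τ l σ) :
    ¬ F.Cap β (supp σ) l ∨ F.Pass z β l σ := by
  generalize hy : Pt.ext z β S = y at ha
  induction ha with
  | refl => subst hy; exact hN.2.2
  | step _ hk ih =>
    refine ih ?_
    have := hN.1
    rwa [min_eq_right hk] at this

theorem N_open {z : Pt X M} : ∀ {l : ℕ} {τ : Pt X M}, F.N z l τ →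
    ∃ m, ∀ σ, F.N τ m σ → F.N z l σ := by
  induction z with
  | root x =>
    intro l τ h
    refine ⟨l, fun σ hσ => ?_⟩
    intro p hp
    rcases N_supp hσ hp with h1 | h1
    · exact h h1
    · exact Or.inr h1
  | ext z β S ih =>
    intro l τ h
    obtain ⟨h1, h2, h3⟩ := h
    obtain ⟨m1, hm1⟩ := ih h1
    have h4 : ∃ m, ∀ σ, F.N τ m σ → (¬ F.Cap β (supp σ) l ∨ F.Pass z β l σ) := by
      rcases h3 with h3 | ⟨S', h3⟩
      · unfold Cap at h3
        push Not at h3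
        obtain ⟨n, hn, hn'⟩ := h3
        refine ⟨n + 1, fun σ hσ => Or.inl fun hc => ?_⟩
        rcases N_supp hσ (hc n hn) with h5 | h5
        · exact hn' h5
        · have : n + 1 ≤ F.blk (F.t β n) := h5
          rw [F.blk_t] at this
          omega
      · exact ⟨l, fun σ hσ => h3.cross hσ⟩
    obtain ⟨m2, hm2⟩ := h4
    refine ⟨max l (max m1 m2), fun σ hσ => ⟨hm1 σ (N_mono (by omega) hσ), ?_,
      hm2 σ (N_mono (by omega) hσ)⟩⟩
    intro p hp
    rcases N_supp hσ hp with h5 | h5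
    · exact h2 h5
    · exact Or.inr (above_anti (by omega) h5)

theorem Anc.eq_of_lt {l : ℕ} {y τ : Pt X M} {β : M} {S : Set X}
    (ha : F.Anc l y (.ext τ β S)) (h : F.kk τ S < l) : y = .ext τ β S := by
  cases ha with
  | refl => rfl
  | step _ hk => omega

theorem subset_of_forall {A B : Set X} (h : ∀ l, A ⊆ B ∪ F.above l) : A ⊆ B := by
  intro x hx
  rcases h (F.blk x + 1) hx with h1 | h1
  · exact h1
  · have : F.blk x + 1 ≤ F.blk x := h1
    omega

/-- Description of the specialization order at an extended history. -/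
theorem le_ext_iff {z τ : Pt X M} {β : M} {S : Set X} :
    (∀ l, F.N (.ext z β S) l τ) ↔
      F.N z (F.kk z S) τ ∧ supp τ ⊆ S ∧
        ((∀ m, ¬ F.Cap β (supp τ) m) ∨ ∃ S', τ = .ext z β S') := by
  constructor
  · intro h
    refine ⟨?_, subset_of_forall fun l => (h l).2.1, ?_⟩
    · have := (h (F.kk z S)).1
      rwa [min_self] at this
    · by_cases hc : ∀ m, ¬ F.Cap β (supp τ) m
      · exact Or.inl hc
      · push Not at hc
        obtain ⟨m, hm⟩ := hc
        right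
        cases τ with
        | root x =>
          rcases (h m).2.2 with h1 | ⟨S', h1⟩
          · exact absurd hm h1
          · cases h1
        | ext τ' β' S'' =>
          rcases (h (max m (F.kk τ' S'' + 1))).2.2 with h1 | ⟨S', h1⟩
          · exact absurd (hm.mono subset_rfl (le_max_left _ _)) h1
          · exact ⟨S', (h1.eq_of_lt (by omega)).symm⟩
  · rintro ⟨h1, h2, h3⟩ l
    refine ⟨N_mono (min_le_left _ _) h1, h2.trans subset_union_left, ?_⟩
    rcases h3 with h3 | ⟨S', rfl⟩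
    · exact Or.inl (h3 l)
    · exact Or.inr ⟨S', .refl _⟩

theorem le_root_iff {x : X} {τ : Pt X M} :
    (∀ l, F.N (.root x) l τ) ↔ supp τ ⊆ {x} := by
  constructor
  · intro h
    exact subset_of_forall h
  · intro h l
    exact h.trans subset_union_left

theorem N_trans {z τ σ : Pt X M} (h1 : ∀ l, F.N z l τ) (h2 : ∀ l, F.N τ l σ) (l : ℕ) :
    F.N z l σ := by
  obtain ⟨m, hm⟩ := N_open (h1 l)
  exact hm σ (h2 m)

theorem not_cap_singleton {β : M} {x : X} (m : ℕ) : ¬ F.Cap β {x} m := by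
  intro h
  have h1 : F.t β (max m (F.blk x + 1)) = x := h _ (le_max_left _ _)
  have h2 := F.blk_t β (max m (F.blk x + 1))
  rw [h1] at h2
  omega

theorem supp_nonempty {z : Pt X M} (hz : F.Valid z) : (supp z).Nonempty := by
  cases z with
  | root x => exact ⟨x, rfl⟩
  | ext z β S => exact ⟨_, hz.2.2.2.1 _ le_rfl⟩

/-- A valid history with support inside a singleton is a root. -/
theorem eq_root {x : X} {τ : Pt X M} (hτ : F.Valid τ) (h : supp τ ⊆ {x}) : τ = .root x := by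
  cases τ with
  | root y =>
    have : y = x := h rfl
    rw [this]
  | ext z β S =>
    exact absurd (hτ.2.2.2.1.mono h le_rfl) (not_cap_singleton _)

theorem antisymm {z τ : Pt X M} (hz : F.Valid z) (hτ : F.Valid τ)
    (h1 : ∀ l, F.N z l τ) (h2 : ∀ l, F.N τ l z) : z = τ := by
  cases z with
  | root x => exact (eq_root hτ (le_root_iff.1 h1)).symm
  | ext z β S =>
    obtain ⟨_, h3, h4⟩ := le_ext_iff.1 h1
    have h5 : S ⊆ supp τ := subset_of_forall fun l => N_supp (h2 l)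
    rcases h4 with h4 | ⟨S', rfl⟩
    · exact absurd (hz.2.2.2.1.mono h5 le_rfl) (h4 _)
    · have : S' = S := Subset.antisymm h3 h5
      rw [this]

theorem finite_inter (S : Set X) (n : ℕ) : (S ∩ {x | F.blk x = n}).Finite :=
  (F.fin n).subset inter_subset_right

theorem Small.mono {q q' : ℝ} {S S' : Set X} (h : F.Small q S) (hq : q ≤ q') (hS : S' ⊆ S) :
    F.Small q' S' := by
  intro n
  have h1 : (S' ∩ {x | F.blk x = n}).ncard ≤ (S ∩ {x | F.blk x = n}).ncard :=
    ncard_le_ncard (inter_subset_inter_left _ hS) (finite_inter S n)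
  have h2 : (2 : ℝ) ^ (q * n) ≤ 2 ^ (q' * n) :=
    Real.rpow_le_rpow_of_exponent_le (by norm_num) (by gcongr)
  calc ((S' ∩ {x | F.blk x = n}).ncard : ℝ) ≤ (S ∩ {x | F.blk x = n}).ncard := by exact_mod_cast h1
    _ ≤ _ := h n
    _ ≤ _ := h2

theorem small_of_forall {q : ℝ} {S : Set X} (h : ∀ s, q < s → F.Small s S) : F.Small q S := by
  intro n
  have hc : Continuous fun s : ℝ => (2 : ℝ) ^ (s * n) :=
    Continuous.rpow continuous_const (continuous_id.mul continuous_const)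
      (fun _ => Or.inl (by norm_num))
  have ht : Filter.Tendsto (fun s : ℝ => (2 : ℝ) ^ (s * n)) (nhdsWithin q (Ioi q))
      (nhds (2 ^ (q * n))) := (hc.tendsto q).mono_left nhdsWithin_le_nhds
  exact ge_of_tendsto ht (Filter.eventually_of_mem self_mem_nhdsWithin fun s hs => h s hs n)

theorem kk_mono {z : Pt X M} {S S' : Set X} (h : S' ⊆ S) (hne : (S' \ supp z).Nonempty) :
    F.kk z S ≤ F.kk z S' := by
  obtain ⟨x, hx, hz, hb⟩ := exists_kk (F := F) hne
  rw [← hb]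
  exact kk_le (h hx) hz

theorem N_column {z : Pt X M} {S : Set X} {β : M} {l : ℕ} (h : l ≤ F.kk z S) :
    F.N z l (.ext z β S) := (Anc.step (.refl z) h).N

/-- Inside a column the order is reverse inclusion of supports. -/
theorem column_le {z : Pt X M} {β : M} {S S' : Set X} (h : S' ⊆ S) (hne : (S' \ supp z).Nonempty) :
    ∀ l, F.N (.ext z β S) l (.ext z β S') :=
  le_ext_iff.2 ⟨N_column (kk_mono h hne), h, Or.inr ⟨S', rfl⟩⟩

/-- The top of a column. -/
theorem le_base {z : Pt X M} {β : M} {S : Set X} (h : F.Valid (.ext z β S)) :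
    ∀ l, F.N (.ext z β S) l z :=
  le_ext_iff.2 ⟨N_refl _ _, h.2.1, Or.inl h.2.2.2.2.2⟩

end Frame

/-- Points of the poset: valid histories with a level. -/
structure Pnt {X M : Type} [LinearOrder M] (F : Frame X M) : Type where
  z : Pt X M
  q : ℝ
  valid : F.Valid z
  q0 : 0 ≤ q
  qQ : q < F.Q
  small : F.Small q (supp z)

variable [LinearOrder M] {F : Frame X M}

open _root_.Pool.Agent.Helper884.Sparse.Frame

instance : PartialOrder (Pnt F) where
  le a b := (∀ l, F.N a.z l b.z) ∧ b.q ≤ a.q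
  le_refl a := ⟨fun _ => N_refl _ _, le_rfl⟩
  le_trans a b c h1 h2 := ⟨fun l => N_trans h1.1 h2.1 l, h2.2.trans h1.2⟩
  le_antisymm a b h1 h2 := by
    have hz := antisymm a.valid b.valid h1.1 h2.1
    have hq := le_antisymm h2.2 h1.2
    cases a; cases b
    simp only at hz hq
    subst hz; subst hq
    rfl

theorem le_def {a b : Pnt F} : a ≤ b ↔ (∀ l, F.N a.z l b.z) ∧ b.q ≤ a.q := Iff.rfl

theorem supp_anti {a b : Pnt F} (h : a ≤ b) : supp b.z ⊆ supp a.z :=
  subset_of_forall fun l => N_supp (h.1 l)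

/-- Basic neighbourhoods. -/
def V (l : ℕ) (s : ℝ) (a : Pnt F) : Set (Pnt F) := {b | F.N a.z l b.z ∧ b.q < s}

/-- A set converges to a point if it meets all basic neighbourhoods. -/
def Conv (D : Set (Pnt F)) (a : Pnt F) : Prop := ∀ l s, a.q < s → ∃ d ∈ D, d ∈ V l s a

theorem isLUB_of_conv {D : Set (Pnt F)} {a : Pnt F} (hub : a ∈ upperBounds D) (hc : Conv D a) :
    IsLUB D a := by
  refine ⟨hub, fun u hu => ⟨fun l => ?_, ?_⟩⟩
  · obtain ⟨d, hd, hV, _⟩ := hc l (a.q + 1) (by linarith)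
    obtain ⟨m, hm⟩ := N_open hV
    exact hm _ ((hu hd).1 m)
  · refine le_of_forall_gt fun s hs => ?_
    obtain ⟨d, hd, _, hq⟩ := hc 0 s hs
    exact lt_of_le_of_lt (hu hd).2 hq

theorem exists_avoid {D : Set (Pnt F)} (hne : D.Nonempty) (hdir : DirectedOn (· ≤ ·) D)
    {T : Set X} (hT : T.Finite) (h : ∀ x ∈ T, ∃ d ∈ D, x ∉ supp d.z) :
    ∃ d ∈ D, ∀ x ∈ T, x ∉ supp d.z := by
  induction T, hT using Set.Finite.induction_on with
  | empty =>
    obtain ⟨d, hd⟩ := hne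
    exact ⟨d, hd, fun x hx => absurd hx (notMem_empty x)⟩
  | insert _ _ ih =>
    rename_i a T _ _
    obtain ⟨d1, hd1, h1⟩ := ih fun x hx => h x (mem_insert_of_mem _ hx)
    obtain ⟨d2, hd2, h2⟩ := h a (mem_insert _ _)
    obtain ⟨d, hd, hle1, hle2⟩ := hdir d1 hd1 d2 hd2
    refine ⟨d, hd, fun x hx => ?_⟩
    rcases mem_insert_iff.1 hx with rfl | hx
    · exact fun hc => h2 (supp_anti hle2 hc)
    · exact fun hc => h1 x hx (supp_anti hle1 hc)

theorem finite_lt (l : ℕ) : {x | F.blk x < l}.Finite := by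
  have : {x | F.blk x < l} = ⋃ n ∈ Finset.range l, {x | F.blk x = n} := by
    ext x; simp
  rw [this]
  exact Set.Finite.biUnion (Finset.finite_toSet _) fun n _ => F.fin n

/-- The intersection of all supports. -/
def inf (D : Set (Pnt F)) : Set X := {x | ∀ d ∈ D, x ∈ supp d.z}

theorem exists_close {D : Set (Pnt F)} (hne : D.Nonempty) (hdir : DirectedOn (· ≤ ·) D) (l : ℕ) :
    ∃ d ∈ D, supp d.z ⊆ inf D ∪ F.above l := by
  obtain ⟨d, hd, h⟩ := exists_avoid hne hdir (T := {x | F.blk x < l} \ inf D)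
    ((finite_lt l).subset sdiff_subset) (by
      intro x hx
      have := hx.2
      simp only [inf, mem_ofPred_eq] at this
      push Not at this
      exact this)
  refine ⟨d, hd, fun x hx => ?_⟩
  by_cases h1 : x ∈ inf D
  · exact Or.inl h1
  · right
    by_contra h2
    have h3 : F.blk x < l := not_le.1 h2
    exact h x ⟨h3, h1⟩ hx

theorem bdd_q (D : Set (Pnt F)) : BddBelow ((fun d : Pnt F => d.q) '' D) :=
  ⟨0, by rintro _ ⟨d, _, rfl⟩; exact d.q0⟩

/-- The infimum of the levels. -/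
noncomputable def lev (D : Set (Pnt F)) : ℝ := sInf ((fun d : Pnt F => d.q) '' D)

theorem lev_le {D : Set (Pnt F)} {d : Pnt F} (hd : d ∈ D) : lev D ≤ d.q :=
  csInf_le (bdd_q D) ⟨d, hd, rfl⟩

theorem lev_nonneg {D : Set (Pnt F)} (hne : D.Nonempty) : 0 ≤ lev D :=
  le_csInf (hne.image _) (by rintro _ ⟨d, _, rfl⟩; exact d.q0)

theorem exists_lev_lt {D : Set (Pnt F)} (hne : D.Nonempty) {s : ℝ} (h : lev D < s) :
    ∃ d ∈ D, d.q < s := by
  obtain ⟨_, ⟨d, hd, rfl⟩, h⟩ := exists_lt_of_csInf_lt (hne.image _) h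
  exact ⟨d, hd, h⟩

theorem lev_lt {D : Set (Pnt F)} (hne : D.Nonempty) : lev D < F.Q := by
  obtain ⟨d, hd⟩ := hne
  exact lt_of_le_of_lt (lev_le hd) d.qQ

theorem small_inf {D : Set (Pnt F)} (hne : D.Nonempty) {S : Set X} (hS : S ⊆ inf D) :
    F.Small (lev D) S := by
  refine small_of_forall fun s hs => ?_
  obtain ⟨d, hd, hq⟩ := exists_lev_lt hne hs
  exact d.small.mono hq.le fun x hx => hS hx d hd

/-- The last label. -/
def rank : Pt X M → WithBot M
  | .root _ => ⊥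
  | .ext _ β _ => β

theorem rank_step {z τ : Pt X M} {β : M} {S : Set X} (h : F.Valid (.ext z β S)) (hτ : F.Valid τ)
    (hle : ∀ l, F.N (.ext z β S) l τ) (hr : rank (.ext z β S) ≤ rank τ) :
    ∃ S', τ = .ext z β S' := by
  obtain ⟨_, h2, h3 | h3⟩ := le_ext_iff.1 hle
  · cases τ with
    | root x => simp [rank] at hr
    | ext z' β' S' =>
      have h4 : β ≤ β' := by simpa [rank] using hr
      have h5 : β' ≤ β := h.2.2.2.2.1 β' _ (hτ.2.2.2.1.mono h2 le_rfl)
      have h6 : β = β' := le_antisymm h4 h5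
      subst h6
      exact absurd hτ.2.2.2.1 (h3 _)
  · exact h3

theorem sup_column {D : Set (Pnt F)} (hne : D.Nonempty) (hdir : DirectedOn (· ≤ ·) D)
    {z : Pt X M} {β : M} (h : ∀ d ∈ D, ∃ S, d.z = .ext z β S) :
    ∃ a, a ∈ upperBounds D ∧ Conv D a := by
  have hz : ∀ d ∈ D, d.z = .ext z β (supp d.z) := by
    intro d hd
    obtain ⟨S, hS⟩ := h d hd
    rw [hS]; rfl
  have hv : ∀ d ∈ D, F.Valid (.ext z β (supp d.z)) := by
    intro d hd
    rw [← hz d hd]; exact d.valid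
  obtain ⟨d0, hd0⟩ := hne
  have hne : D.Nonempty := ⟨d0, hd0⟩
  have hzI : supp z ⊆ inf D := fun x hx d hd => (hv d hd).2.1 hx
  by_cases hI : (inf D \ supp z).Nonempty
  · obtain ⟨d1, hd1, h1⟩ := exists_close hne hdir (F.kk z (inf D) + 1)
    have hkk : ∀ d ∈ D, d1 ≤ d → F.kk z (supp d.z) = F.kk z (inf D) := by
      intro d hd hle
      refine le_antisymm (kk_mono (fun x hx => hx d hd) hI) ?_
      obtain ⟨x, hx, hxz, hb⟩ := exists_kk (F := F) (hv d hd).2.2.1
      rw [← hb]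
      rcases h1 (supp_anti hle hx) with h2 | h2
      · exact kk_le h2 hxz
      · exact le_trans (Nat.le_succ _) h2
    have hval : F.Valid (.ext z β (inf D)) := by
      refine ⟨(hv d0 hd0).1, hzI, hI, ?_, ?_, (hv d0 hd0).2.2.2.2.2⟩
      · intro n hn d hd
        obtain ⟨d', hd', hle1, hle2⟩ := hdir d hd d1 hd1
        refine supp_anti hle1 ((hv d' hd').2.2.2.1 n ?_)
        rw [hkk d' hd' hle2]
        exact hn
      · intro γ m hc
        exact (hv d0 hd0).2.2.2.2.1 γ m (hc.mono (fun x hx => hx d0 hd0) le_rfl)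
    refine ⟨⟨.ext z β (inf D), lev D, hval, lev_nonneg hne, lev_lt hne,
      small_inf hne subset_rfl⟩, ?_, ?_⟩
    · intro d hd
      refine ⟨?_, lev_le hd⟩
      rw [hz d hd]
      exact column_le (fun x hx => hx d hd) hI
    · intro l s hs
      obtain ⟨d2, hd2, h2⟩ := exists_close hne hdir l
      obtain ⟨d3, hd3, h3⟩ := exists_lev_lt hne hs
      obtain ⟨d4, hd4, h41, h42⟩ := hdir d1 hd1 d2 hd2
      obtain ⟨d, hd, h51, h52⟩ := hdir d4 hd4 d3 hd3
      refine ⟨d, hd, ?_, lt_of_le_of_lt h52.2 h3⟩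
      change F.N (.ext z β (inf D)) l d.z
      rw [hz d hd]
      refine ⟨N_column ?_, ?_, Or.inr ⟨_, .refl _⟩⟩
      · rw [hkk d hd (h41.trans h51)]
        exact min_le_left _ _
      · exact fun x hx => h2 (supp_anti (h42.trans h51) hx)
  · have hI' : inf D ⊆ supp z := by
      intro x hx
      by_contra hc
      exact hI ⟨x, hx, hc⟩
    refine ⟨⟨z, lev D, (hv d0 hd0).1, lev_nonneg hne, lev_lt hne, small_inf hne hzI⟩, ?_, ?_⟩
    · intro d hd
      refine ⟨?_, lev_le hd⟩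
      have := le_base (hv d hd)
      rw [← hz d hd] at this
      exact this
    · intro l s hs
      obtain ⟨d2, hd2, h2⟩ := exists_close hne hdir l
      obtain ⟨d3, hd3, h3⟩ := exists_lev_lt hne hs
      obtain ⟨d, hd, h51, h52⟩ := hdir d2 hd2 d3 hd3
      refine ⟨d, hd, ?_, lt_of_le_of_lt h52.2 h3⟩
      change F.N z l d.z
      rw [hz d hd]
      refine N_column ?_
      obtain ⟨x, hx, hxz, hb⟩ := exists_kk (F := F) (hv d hd).2.2.1
      rw [← hb]
      rcases h2 (supp_anti h51 hx) with h6 | h6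
      · exact absurd (hI' h6) hxz
      · exact h6

theorem sup_root {D : Set (Pnt F)} (hne : D.Nonempty) {x : X} (h : ∀ d ∈ D, d.z = .root x) :
    ∃ a, a ∈ upperBounds D ∧ Conv D a := by
  have hsub : {x} ⊆ inf D := by
    rintro _ rfl d hd
    rw [h d hd]; rfl
  refine ⟨⟨.root x, lev D, trivial, lev_nonneg hne, lev_lt hne, small_inf hne hsub⟩, ?_, ?_⟩
  · intro d hd
    refine ⟨?_, lev_le hd⟩
    rw [h d hd]
    exact fun l => N_refl _ _
  · intro l s hs
    obtain ⟨d, hd, h3⟩ := exists_lev_lt hne hs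
    refine ⟨d, hd, ?_, h3⟩
    change F.N (.root x) l d.z
    rw [h d hd]
    exact N_refl _ _

theorem exists_sup [WellFoundedLT M] {D : Set (Pnt F)} (hne : D.Nonempty)
    (hdir : DirectedOn (· ≤ ·) D) : ∃ a, a ∈ upperBounds D ∧ Conv D a := by
  obtain ⟨d0, hd0, hmin⟩ := (InvImage.wf (fun d : Pnt F => rank d.z)
    (wellFounded_lt (α := WithBot M))).has_min D hne
  have hmin' : ∀ d ∈ D, rank d0.z ≤ rank d.z := fun d hd => not_lt.1 (hmin d hd)
  have key : ∃ a, a ∈ upperBounds {d ∈ D | d0 ≤ d} ∧ Conv {d ∈ D | d0 ≤ d} a := by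
    have hne' : {d ∈ D | d0 ≤ d}.Nonempty := ⟨d0, hd0, le_rfl⟩
    have hdir' : DirectedOn (· ≤ ·) {d ∈ D | d0 ≤ d} := by
      rintro a ⟨ha, ha'⟩ b ⟨hb, _⟩
      obtain ⟨c, hc, h1, h2⟩ := hdir a ha b hb
      exact ⟨c, ⟨hc, ha'.trans h1⟩, h1, h2⟩
    cases hz : d0.z with
    | root x =>
      refine sup_root hne' (x := x) ?_
      rintro d ⟨_, hle⟩
      refine eq_root d.valid ((le_root_iff (F := F)).1 ?_)
      rw [← hz]
      exact hle.1
    | ext z β S =>
      refine sup_column hne' hdir' (z := z) (β := β) ?_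
      rintro d ⟨hd, hle⟩
      have hv := d0.valid
      have h1 := hle.1
      have h2 := hmin' d hd
      rw [hz] at hv h1 h2
      exact rank_step hv d.valid h1 h2
  obtain ⟨a, ha, hc⟩ := key
  refine ⟨a, fun d hd => ?_, fun l s hs => ?_⟩
  · obtain ⟨c, hc, h1, h2⟩ := hdir d hd d0 hd0
    exact h1.trans (ha ⟨hc, h2⟩)
  · obtain ⟨d, hd, h⟩ := hc l s hs
    exact ⟨d, hd.1, h⟩

theorem exists_isLUB [WellFoundedLT M] (D : Set (Pnt F)) (hne : D.Nonempty)
    (hdir : DirectedOn (· ≤ ·) D) : ∃ a, IsLUB D a := by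
  obtain ⟨a, ha, hc⟩ := exists_sup hne hdir
  exact ⟨a, isLUB_of_conv ha hc⟩

theorem conv_of_isLUB [WellFoundedLT M] {D : Set (Pnt F)} (hne : D.Nonempty)
    (hdir : DirectedOn (· ≤ ·) D) {a : Pnt F} (h : IsLUB D a) : Conv D a := by
  obtain ⟨b, hb, hc⟩ := exists_sup hne hdir
  have : a = b := h.unique (isLUB_of_conv hb hc)
  rw [this]; exact hc

/-- The part of the selector of `δ` in blocks at least `k`. -/
def tail (F : Frame X M) (δ : M) (k : ℕ) : Set X := {x | ∃ n, k ≤ n ∧ x = F.t δ n}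

theorem tail_anti (δ : M) {k l : ℕ} (h : k ≤ l) : tail F δ l ⊆ tail F δ k :=
  fun _ ⟨n, hn, hx⟩ => ⟨n, h.trans hn, hx⟩

theorem tail_subset_above (δ : M) (k : ℕ) : tail F δ k ⊆ F.above k := by
  rintro _ ⟨n, hn, rfl⟩
  change k ≤ F.blk (F.t δ n)
  rw [F.blk_t]; exact hn

theorem cap_union_tail {γ δ : M} {S : Set X} {k m : ℕ} (hne : γ ≠ δ)
    (h : F.Cap γ (S ∪ tail F δ k) m) : ∃ m', F.Cap γ S m' := by
  obtain ⟨m', hm'⟩ := F.ad γ δ hne
  refine ⟨max m m', fun n hn => ?_⟩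
  rcases h n (le_trans (le_max_left _ _) hn) with h1 | ⟨n', _, h2⟩
  · exact h1
  · exfalso
    have h3 : n = n' := by
      have := congrArg F.blk h2
      rwa [F.blk_t, F.blk_t] at this
    subst h3
    exact hm' n (le_trans (le_max_right _ _) hn) h2

/-- Attaching a new column to a history. -/
theorem attach {z : Pt X M} (hz : F.Valid z) {S₁ S₂ : Set X} {δ : M} {k : ℕ}
    (h1 : supp z ⊆ S₂) (h2 : S₂ ⊆ S₁) (h3 : S₂ ⊆ supp z ∪ F.above k)
    (hδ : ∀ β m, F.Cap β S₁ m → β < δ) :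
    F.Valid (.ext z δ (S₂ ∪ tail F δ k)) ∧ k ≤ F.kk z (S₂ ∪ tail F δ k) := by
  have hnc : ∀ m, ¬ F.Cap δ (supp z) m := fun m hm =>
    lt_irrefl _ (hδ δ m (hm.mono (h1.trans h2) le_rfl))
  have hne : ((S₂ ∪ tail F δ k) \ supp z).Nonempty := by
    by_contra hcon
    refine hnc k fun n hn => ?_
    by_contra hx
    exact hcon ⟨F.t δ n, Or.inr ⟨n, hn, rfl⟩, hx⟩
  have hk : k ≤ F.kk z (S₂ ∪ tail F δ k) := by
    obtain ⟨x, hx, hxz, hb⟩ := exists_kk (F := F) hne
    rw [← hb]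
    rcases hx with hx | hx
    · rcases h3 hx with h4 | h4
      · exact absurd h4 hxz
      · exact h4
    · exact tail_subset_above δ k hx
  refine ⟨⟨hz, h1.trans subset_union_left, hne, ?_, ?_, hnc⟩, hk⟩
  · intro n hn
    exact Or.inr ⟨n, hk.trans hn, rfl⟩
  · intro γ m hc
    by_cases hγ : γ = δ
    · exact hγ.le
    · obtain ⟨m', hm'⟩ := cap_union_tail hγ hc
      exact (hδ γ m' (hm'.mono h2 le_rfl)).le

theorem Small.union {A B : Set X} {a b c : ℝ} {l : ℕ} (hA : F.Small a A) (hB : F.Small b B)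
    (hsub : B ⊆ A ∪ F.above l) (hac : a ≤ c) (hbc : b ≤ c) (h1 : 1 ≤ (c - a) * l)
    (h2 : 1 ≤ (c - b) * l) : F.Small c (A ∪ B) := by
  intro n
  by_cases hn : n < l
  · have h3 : (A ∪ B) ∩ {x | F.blk x = n} ⊆ A ∩ {x | F.blk x = n} := by
      rintro x ⟨hx | hx, hb⟩
      · exact ⟨hx, hb⟩
      · rcases hsub hx with h4 | h4
        · exact ⟨h4, hb⟩
        · have h5 : l ≤ F.blk x := h4
          have h6 : F.blk x = n := hb
          omega
    have h4 := ncard_le_ncard h3 (finite_inter A n)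
    have h5 := (hA.mono hac subset_rfl) n
    exact le_trans (by exact_mod_cast h4) h5
  · have hln : (l : ℝ) ≤ n := by exact_mod_cast not_lt.1 hn
    have h3 : (((A ∪ B) ∩ {x | F.blk x = n}).ncard : ℝ) ≤
        (A ∩ {x | F.blk x = n}).ncard + (B ∩ {x | F.blk x = n}).ncard := by
      rw [union_inter_distrib_right]
      exact_mod_cast ncard_union_le _ _
    have h4 : (2 : ℝ) ^ (a * n) ≤ 2 ^ (c * n - 1) := by
      refine Real.rpow_le_rpow_of_exponent_le (by norm_num) ?_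
      have : (c - a) * l ≤ (c - a) * n := mul_le_mul_of_nonneg_left hln (by linarith)
      linarith
    have h5 : (2 : ℝ) ^ (b * n) ≤ 2 ^ (c * n - 1) := by
      refine Real.rpow_le_rpow_of_exponent_le (by norm_num) ?_
      have : (c - b) * l ≤ (c - b) * n := mul_le_mul_of_nonneg_left hln (by linarith)
      linarith
    have h6 : (2 : ℝ) ^ (c * n) = 2 * 2 ^ (c * n - 1) := by
      rw [Real.rpow_sub (by norm_num), Real.rpow_one]; ring
    have := hA n
    have := hB n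
    rw [h6]
    linarith

theorem small_tail (δ : M) (k : ℕ) {q : ℝ} (hq : 0 ≤ q) : F.Small q (tail F δ k) := by
  intro n
  have h1 : tail F δ k ∩ {x | F.blk x = n} ⊆ {F.t δ n} := by
    rintro _ ⟨⟨n', _, rfl⟩, hb⟩
    have hb' : F.blk (F.t δ n') = n := hb
    rw [F.blk_t] at hb'
    rw [hb']; rfl
  have h2 := ncard_le_ncard h1 (finite_singleton _)
  rw [ncard_singleton] at h2
  have h3 : (1 : ℝ) ≤ 2 ^ (q * n) := Real.one_le_rpow (by norm_num) (by positivity)
  exact le_trans (by exact_mod_cast h2) h3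

theorem small_singleton (x : X) {q : ℝ} (hq : 0 ≤ q) : F.Small q {x} := by
  intro n
  have h2 := ncard_le_ncard (inter_subset_left (s := {x}) (t := {x | F.blk x = n}))
    (finite_singleton _)
  rw [ncard_singleton] at h2
  have h3 : (1 : ℝ) ≤ 2 ^ (q * n) := Real.one_le_rpow (by norm_num) (by positivity)
  exact le_trans (by exact_mod_cast h2) h3

/-- Finite unions. -/
def uni (A : Set X) (B : ℕ → Set X) (j m : ℕ) : Set X := A ∪ {x | ∃ i, j ≤ i ∧ i < m ∧ x ∈ B i}

/-- Unions of tails of a sequence. -/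
def uniI (A : Set X) (B : ℕ → Set X) (j : ℕ) : Set X := A ∪ {x | ∃ i, j ≤ i ∧ x ∈ B i}

theorem small_uni {A : Set X} {B : ℕ → Set X} {q : ℝ} {c : ℕ} (hc : 1 ≤ c) (hA : F.Small q A)
    (hB : ∀ i : ℕ, F.Small (q + 1 / (i + c)) (B i))
    (hsub : ∀ i, B i ⊆ A ∪ F.above ((i + c) * (i + c + 1))) (j : ℕ) :
    ∀ m, j ≤ m → F.Small (q + 2 / (j + c) - 1 / (m + c)) (uni A B j m) := by
  have hc' : (1 : ℝ) ≤ c := by exact_mod_cast hc
  intro m hm
  induction m, hm using Nat.le_induction with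
  | base =>
    refine hA.mono ?_ ?_
    · have : (0 : ℝ) < j + c := by positivity
      have h1 : (2 : ℝ) / (j + c) = 1 / (j + c) + 1 / (j + c) := by ring
      have : (0 : ℝ) < 1 / (j + c) := by positivity
      linarith
    · rintro x (hx | ⟨i, h1, h2, _⟩)
      · exact hx
      · omega
  | succ m hm ih =>
    have hjm : (j : ℝ) ≤ m := by exact_mod_cast hm
    have hj0 : (0 : ℝ) ≤ j := Nat.cast_nonneg j
    have hu : uni A B j (m + 1) = uni A B j m ∪ B m := by
      ext x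
      constructor
      · rintro (hx | ⟨i, h1, h2, h3⟩)
        · exact Or.inl (Or.inl hx)
        · rcases Nat.lt_succ_iff_lt_or_eq.1 h2 with h4 | rfl
          · exact Or.inl (Or.inr ⟨i, h1, h4, h3⟩)
          · exact Or.inr h3
      · rintro ((hx | ⟨i, h1, h2, h3⟩) | hx)
        · exact Or.inl hx
        · exact Or.inr ⟨i, h1, by omega, h3⟩
        · exact Or.inr ⟨m, hm, by omega, hx⟩
    rw [hu]
    have e1 : (1 : ℝ) / (m + c) - 1 / ((m + 1 : ℕ) + c) = 1 / ((m + c) * (m + c + 1)) := by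
      push_cast
      field_simp
      ring
    have e2 : (2 : ℝ) / (m + c) ≤ 2 / (j + c) := by gcongr
    have e3 : (2 : ℝ) / (m + c) = 1 / (m + c) + 1 / (m + c) := by ring
    have e4 : (0 : ℝ) < 1 / ((m + c) * (m + c + 1)) := by positivity
    have e5 : (1 : ℝ) / ((m + c) * (m + c + 1)) * (((m + c) * (m + c + 1) : ℕ) : ℝ) = 1 := by
      push_cast
      field_simp
    have hl0 : (0 : ℝ) ≤ (((m + c) * (m + c + 1) : ℕ) : ℝ) := Nat.cast_nonneg _
    refine Small.union (l := (m + c) * (m + c + 1)) ih (hB m)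
      ((hsub m).trans (union_subset_union_left _ subset_union_left)) ?_ ?_ ?_ ?_
    · linarith
    · linarith
    · have : (q + 2 / (j + c) - 1 / ((m + 1 : ℕ) + c) : ℝ) - (q + 2 / (j + c) - 1 / (m + c)) =
          1 / ((m + c) * (m + c + 1)) := by linarith
      rw [this, e5]
    · have h7 : (1 : ℝ) / ((m + c) * (m + c + 1)) ≤
          (q + 2 / (j + c) - 1 / ((m + 1 : ℕ) + c) : ℝ) - (q + 1 / (m + c)) := by linarith
      calc (1 : ℝ) = 1 / ((m + c) * (m + c + 1)) * (((m + c) * (m + c + 1) : ℕ) : ℝ) := e5.symm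
        _ ≤ _ := mul_le_mul_of_nonneg_right h7 hl0

theorem small_uniI {A : Set X} {B : ℕ → Set X} {q : ℝ} {c : ℕ} (hc : 1 ≤ c) (hA : F.Small q A)
    (hB : ∀ i : ℕ, F.Small (q + 1 / (i + c)) (B i))
    (hsub : ∀ i, B i ⊆ A ∪ F.above ((i + c) * (i + c + 1))) (j : ℕ) :
    F.Small (q + 2 / (j + c)) (uniI A B j) := by
  intro n
  have hc' : (1 : ℝ) ≤ c := by exact_mod_cast hc
  have h1 := small_uni hc hA hB hsub j (max j (n + 1)) (le_max_left _ _)
  have h2 : (0 : ℝ) ≤ 1 / ((max j (n + 1) : ℕ) + c) := by positivity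
  have h3 := (h1.mono (q' := q + 2 / (j + c)) (by linarith) subset_rfl) n
  refine le_trans ?_ h3
  have h4 : uniI A B j ∩ {x | F.blk x = n} ⊆ uni A B j (max j (n + 1)) ∩ {x | F.blk x = n} := by
    rintro x ⟨hx | ⟨i, hi, hx⟩, hb⟩
    · exact ⟨Or.inl hx, hb⟩
    · rcases hsub i hx with h5 | h5
      · exact ⟨Or.inl h5, hb⟩
      · refine ⟨Or.inr ⟨i, hi, ?_, hx⟩, hb⟩
        have h6 : (i + c) * (i + c + 1) ≤ F.blk x := h5
        have h7 : F.blk x = n := hb
        have h8 : i ≤ (i + c) * (i + c + 1) := by nlinarith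
        omega
  exact_mod_cast ncard_le_ncard h4 (finite_inter _ n)

theorem exists_above {q : ℝ} (hq : q < F.Q) {S : Set X} (hS : F.Small q S) :
    ∃ δ, ∀ β m, F.Cap β S m → β < δ := F.bdd q hq S hS

/-- Scott open sets are neighbourhoods of their points. -/
theorem nbd_of_scott {U : Set (Pnt F)} (hU : IsUpperSet U) (hS : DirSupInaccOn univ U)
    (a : Pnt F) (ha : a ∈ U) : ∃ (l : ℕ) (s : ℝ), a.q < s ∧ V l s a ⊆ U := by
  by_contra hcon
  push Not at hcon
  obtain ⟨c0, hc0⟩ := exists_nat_gt (3 / (F.Q - a.q))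
  have hQ : 0 < F.Q - a.q := by have := a.qQ; linarith
  obtain ⟨c, hc, hc3⟩ : ∃ c : ℕ, 1 ≤ c ∧ 3 / (c : ℝ) < F.Q - a.q := by
    refine ⟨max 1 c0, le_max_left _ _, ?_⟩
    have h1 : (c0 : ℝ) ≤ (max 1 c0 : ℕ) := by exact_mod_cast le_max_right _ _
    have h2 : (0 : ℝ) < (max 1 c0 : ℕ) := by
      have : 0 < max 1 c0 := by omega
      exact_mod_cast this
    rw [div_lt_iff₀ h2]
    rw [div_lt_iff₀ hQ] at hc0
    nlinarith
  have hc' : (1 : ℝ) ≤ c := by exact_mod_cast hc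
  have hex : ∀ i : ℕ, ∃ b : Pnt F, F.N a.z ((i + c) * (i + c + 1)) b.z ∧
      b.q < a.q + 1 / (i + c) ∧ b ∉ U := by
    intro i
    have := hcon ((i + c) * (i + c + 1)) (a.q + 1 / (i + c)) (by
      have : (0 : ℝ) < 1 / (i + c) := by positivity
      linarith)
    rw [not_subset] at this
    obtain ⟨b, ⟨h1, h2⟩, h3⟩ := this
    exact ⟨b, h1, h2, h3⟩
  choose b hbN hbq hbU using hex
  have hB : ∀ i : ℕ, F.Small (a.q + 1 / (i + c)) (supp (b i).z) := fun i =>
    (b i).small.mono (hbq i).le subset_rfl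
  have hsub : ∀ i, supp (b i).z ⊆ supp a.z ∪ F.above ((i + c) * (i + c + 1)) := fun i =>
    N_supp (hbN i)
  have hsm := small_uniI hc a.small hB hsub
  have hquot : ∀ j : ℕ, (1 : ℝ) / (j + c) ≤ 1 / c := by
    intro j
    have : (0 : ℝ) ≤ j := Nat.cast_nonneg j
    gcongr
    linarith
  have e2 : ∀ j : ℕ, (2 : ℝ) / (j + c) = 2 * (1 / (j + c)) := fun j => by ring
  have e3 : ∀ j : ℕ, (3 : ℝ) / (j + c) = 3 * (1 / (j + c)) := fun j => by ring
  have e3c : (3 : ℝ) / c = 3 * (1 / c) := by ring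
  have epos : ∀ j : ℕ, (0 : ℝ) < 1 / (j + c) := fun j => by positivity
  obtain ⟨δ, hδ⟩ := exists_above (F := F) (q := a.q + 2 / ((0 : ℕ) + c)) (by
    have := hquot 0
    have := epos 0
    rw [e2 0]
    rw [e3c] at hc3
    have h9 : (0 : ℝ) < 1 / c := by positivity
    linarith) (hsm 0)
  have hmono : ∀ i j, i ≤ j → uniI (supp a.z) (fun i => supp (b i).z) j ⊆
      uniI (supp a.z) (fun i => supp (b i).z) i := by
    rintro i j hij x (hx | ⟨k, hk, hx⟩)
    · exact Or.inl hx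
    · exact Or.inr ⟨k, hij.trans hk, hx⟩
  have habove : ∀ j, uniI (supp a.z) (fun i => supp (b i).z) j ⊆
      supp a.z ∪ F.above ((j + c) * (j + c + 1)) := by
    rintro j x (hx | ⟨k, hk, hx⟩)
    · exact Or.inl hx
    · rcases hsub k hx with h1 | h1
      · exact Or.inl h1
      · refine Or.inr (above_anti ?_ h1)
        gcongr
  have hatt : ∀ j, _ := fun j => attach (F := F) a.valid (S₁ := uniI (supp a.z) (fun i => supp (b i).z) 0)
    (S₂ := uniI (supp a.z) (fun i => supp (b i).z) j) (δ := δ) (k := (j + c) * (j + c + 1))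
    subset_union_left (hmono 0 j (Nat.zero_le _)) (habove j) hδ
  let y : ℕ → Pnt F := fun j =>
    { z := .ext a.z δ (uniI (supp a.z) (fun i => supp (b i).z) j ∪
        tail F δ ((j + c) * (j + c + 1)))
      q := a.q + 3 / (j + c)
      valid := (hatt j).1
      q0 := by
        have := a.q0
        have := epos j
        rw [e3 j]; linarith
      qQ := by
        have := hquot j
        rw [e3 j]
        rw [e3c] at hc3
        linarith
      small := by
        have hj : (0 : ℝ) < j + c := by positivity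
        refine Small.union (l := (j + c) * (j + c + 1)) (hsm j)
          (small_tail δ _ (q := a.q + 2 / (j + c)) ?_) ?_ ?_ ?_ ?_ ?_
        · have := a.q0
          have := epos j
          rw [e2 j]; linarith
        · exact (tail_subset_above δ _).trans subset_union_right
        · have := epos j
          rw [e2 j, e3 j]; linarith
        · have := epos j
          rw [e2 j, e3 j]; linarith
        · have h1 : (a.q + 3 / (j + c) : ℝ) - (a.q + 2 / (j + c)) = 1 / (j + c) := by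
            rw [e2 j, e3 j]; ring
          rw [h1]
          push_cast
          field_simp
          linarith
        · have h1 : (a.q + 3 / (j + c) : ℝ) - (a.q + 2 / (j + c)) = 1 / (j + c) := by
            rw [e2 j, e3 j]; ring
          rw [h1]
          push_cast
          field_simp
          linarith }
  have hyz : ∀ j, (y j).z = .ext a.z δ (uniI (supp a.z) (fun i => supp (b i).z) j ∪
        tail F δ ((j + c) * (j + c + 1))) := fun j => rfl
  have hyq : ∀ j, (y j).q = a.q + 3 / (j + c) := fun j => rfl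
  have hymono : Monotone y := by
    intro i j hij
    refine ⟨?_, ?_⟩
    · rw [hyz, hyz]
      exact column_le (union_subset_union (hmono i j hij) (tail_anti δ (by gcongr)))
        (hatt j).1.2.2.1
    · rw [hyq, hyq]
      have : (i : ℝ) ≤ j := by exact_mod_cast hij
      gcongr
  have hub : a ∈ upperBounds (range y) := by
    rintro _ ⟨j, rfl⟩
    refine ⟨?_, ?_⟩
    · rw [hyz]
      exact le_base (hatt j).1
    · rw [hyq]
      have := epos j
      rw [e3 j]; linarith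
  have hconv : Conv (range y) a := by
    intro l s hs
    obtain ⟨j, hj⟩ := exists_nat_gt (3 / (s - a.q))
    refine ⟨_, ⟨max l j, rfl⟩, ?_, ?_⟩
    · rw [hyz]
      refine N_column (le_trans ?_ (hatt (max l j)).2)
      have h1 : l ≤ max l j := le_max_left _ _
      nlinarith
    · rw [hyq]
      have h1 : (j : ℝ) ≤ (max l j : ℕ) := by exact_mod_cast le_max_right _ _
      have h2 : (0 : ℝ) < s - a.q := by linarith
      have h3 : (0 : ℝ) < (max l j : ℕ) + c := by positivity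
      rw [div_lt_iff₀ h2] at hj
      have h4 : (3 : ℝ) / ((max l j : ℕ) + c) < s - a.q := by
        rw [div_lt_iff₀ h3]
        nlinarith
      linarith
  obtain ⟨_, ⟨j, rfl⟩, hjU⟩ := hS (mem_univ _) (range_nonempty y)
    (directedOn_range.2 hymono.directed_le) (isLUB_of_conv hub hconv) ha
  refine hbU (max j (F.kk a.z (uniI (supp a.z) (fun i => supp (b i).z) j ∪
        tail F δ ((j + c) * (j + c + 1))))) (hU ?_ hjU)
  set K := F.kk a.z (uniI (supp a.z) (fun i => supp (b i).z) j ∪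
        tail F δ ((j + c) * (j + c + 1))) with hK
  have hjK : j ≤ max j K := le_max_left _ _
  have hKK : K ≤ max j K := le_max_right _ _
  refine ⟨?_, ?_⟩
  · rw [hyz]
    refine le_ext_iff.2 ⟨N_mono ?_ (hbN (max j K)), ?_, Or.inl ?_⟩
    · rw [← hK]
      nlinarith
    · exact fun x hx => Or.inl (Or.inr ⟨_, hjK, hx⟩)
    · intro m hm
      exact lt_irrefl _ (hδ δ m (hm.mono (fun x hx => Or.inr ⟨_, Nat.zero_le _, hx⟩) le_rfl))
  · rw [hyq]
    refine (hbq (max j K)).le.trans ?_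
    have h1 : (j : ℝ) ≤ (max j K : ℕ) := by exact_mod_cast hjK
    have h2 : (1 : ℝ) / ((max j K : ℕ) + c) ≤ 3 / (j + c) := by
      have : (1 : ℝ) / ((max j K : ℕ) + c) ≤ 1 / (j + c) := by
        gcongr
      have := epos j
      rw [e3 j]; linarith
    linarith

theorem mem_V_self (a : Pnt F) (l : ℕ) {s : ℝ} (hs : a.q < s) : a ∈ V l s a := ⟨N_refl _ _, hs⟩

theorem scott_iff [WellFoundedLT M] (U : Set (Pnt F)) :
    (IsUpperSet U ∧ DirSupInaccOn univ U) ↔
      ∀ a ∈ U, ∃ (l : ℕ) (s : ℝ), a.q < s ∧ V l s a ⊆ U := by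
  constructor
  · rintro ⟨h1, h2⟩ a ha
    exact nbd_of_scott h1 h2 a ha
  · intro h
    refine ⟨?_, ?_⟩
    · intro a b hab ha
      obtain ⟨l, s, hs, hV⟩ := h a ha
      exact hV ⟨hab.1 l, lt_of_le_of_lt hab.2 hs⟩
    · intro D _ hne hdir a hlub ha
      obtain ⟨l, s, hs, hV⟩ := h a ha
      obtain ⟨d, hd, hdV⟩ := conv_of_isLUB hne hdir hlub l s hs
      exact ⟨d, hd, hV hdV⟩

instance : TopologicalSpace (Pnt F) := Topology.scott (Pnt F) univ

instance : Topology.IsScott (Pnt F) univ := ⟨rfl⟩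

theorem isOpen_iff [WellFoundedLT M] {U : Set (Pnt F)} :
    IsOpen U ↔ ∀ a ∈ U, ∃ (l : ℕ) (s : ℝ), a.q < s ∧ V l s a ⊆ U := by
  rw [Topology.IsScott.isOpen_iff_isUpperSet_and_dirSupInaccOn (D := univ), scott_iff]

theorem isOpen_V [WellFoundedLT M] (a : Pnt F) (l : ℕ) (s : ℝ) : IsOpen (V l s a) := by
  rw [isOpen_iff]
  rintro b ⟨hb, hs⟩
  obtain ⟨m, hm⟩ := N_open hb
  exact ⟨m, s, hs, fun c hc => ⟨hm _ hc.1, hc.2⟩⟩

/-- New points below a given point. -/
theorem exists_col (a : Pnt F) {B : Set X} {k : ℕ} {ε : ℝ} (hk : 1 ≤ k) (hε : 0 < ε)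
    (hkε : 1 ≤ ε * k) (hQ : a.q + 4 * ε < F.Q) (hB : F.Small (a.q + ε) B)
    (hsub : B ⊆ supp a.z ∪ F.above k) :
    ∃ (w : Pnt F) (δ : M) (S : Set X), w.z = .ext a.z δ S ∧ w.q = a.q + 4 * ε ∧
      F.kk a.z S = k ∧ B ⊆ S ∧ ∀ m, ¬ F.Cap δ B m := by
  obtain ⟨v, hv, hva⟩ := F.room a.q a.qQ (supp a.z) a.small k hk
  have ha0 := a.q0
  have h1 : F.Small (a.q + 2 * ε) (supp a.z ∪ B) := by
    refine Small.union a.small hB hsub ?_ ?_ ?_ ?_
    · linarith
    · linarith
    · have : (a.q + 2 * ε - a.q) * k = 2 * (ε * k) := by ring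
      rw [this]; linarith
    · have : (a.q + 2 * ε - (a.q + ε)) * k = ε * k := by ring
      rw [this]; exact hkε
  have h2 : F.Small (a.q + 3 * ε) (supp a.z ∪ B ∪ {v}) := by
    refine Small.union (l := k) h1 (small_singleton v (q := a.q + 2 * ε) (by linarith))
      ?_ ?_ ?_ ?_ ?_
    · rintro _ rfl
      exact Or.inr hv.ge
    · linarith
    · linarith
    · have : (a.q + 3 * ε - (a.q + 2 * ε)) * k = ε * k := by ring
      rw [this]; exact hkε
    · have : (a.q + 3 * ε - (a.q + 2 * ε)) * k = ε * k := by ring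
      rw [this]; exact hkε
  obtain ⟨δ, hδ⟩ := exists_above (F := F) (by linarith) h2
  have h3 : F.Small (a.q + 4 * ε) (supp a.z ∪ B ∪ {v} ∪ tail F δ k) := by
    refine Small.union (l := k) h2 (small_tail δ k (q := a.q + 3 * ε) (by linarith))
      ((tail_subset_above δ k).trans subset_union_right) ?_ ?_ ?_ ?_
    · linarith
    · linarith
    · have : (a.q + 4 * ε - (a.q + 3 * ε)) * k = ε * k := by ring
      rw [this]; exact hkε
    · have : (a.q + 4 * ε - (a.q + 3 * ε)) * k = ε * k := by ring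
      rw [this]; exact hkε
  obtain ⟨h4, h5⟩ := attach (F := F) a.valid (S₁ := supp a.z ∪ B ∪ {v})
    (S₂ := supp a.z ∪ B ∪ {v}) (δ := δ) (k := k)
    (subset_union_left.trans subset_union_left) subset_rfl (by
      rintro x ((hx | hx) | rfl)
      · exact Or.inl hx
      · exact hsub hx
      · exact Or.inr hv.ge) hδ
  refine ⟨⟨.ext a.z δ (supp a.z ∪ B ∪ {v} ∪ tail F δ k), a.q + 4 * ε, h4, by linarith, hQ, h3⟩,
    δ, _, rfl, rfl, ?_, ?_, ?_⟩
  · refine le_antisymm ?_ h5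
    have h6 : v ∈ supp a.z ∪ B ∪ {v} ∪ tail F δ k := Or.inl (Or.inr rfl)
    exact (kk_le h6 hva).trans hv.le
  · exact fun x hx => Or.inl (Or.inl (Or.inr hx))
  · intro m hm
    exact lt_irrefl _ (hδ δ m (hm.mono (fun x hx => Or.inl (Or.inr hx)) le_rfl))

/-- Choice of parameters. -/
theorem exists_param (a : Pnt F) {s : ℝ} (hs : a.q < s) (l : ℕ) :
    ∃ (ε : ℝ) (k : ℕ), 0 < ε ∧ 1 ≤ k ∧ l ≤ k ∧ 1 ≤ ε * k ∧ a.q + 4 * ε < F.Q ∧
      a.q + 4 * ε < s := by
  have hQ := a.qQ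
  have h1 : a.q < min s F.Q := lt_min hs hQ
  obtain ⟨c, hc⟩ := exists_nat_gt (1 / ((min s F.Q - a.q) / 5))
  have hε : 0 < (min s F.Q - a.q) / 5 := by linarith
  refine ⟨(min s F.Q - a.q) / 5, max 1 (max l c), hε, le_max_left _ _,
    (le_max_left _ _).trans (le_max_right _ _), ?_, ?_, ?_⟩
  · rw [div_lt_iff₀ hε] at hc
    have h2 : (c : ℝ) ≤ (max 1 (max l c) : ℕ) := by
      exact_mod_cast (le_max_right _ _).trans (le_max_right _ _)
    nlinarith
  · have := min_le_right s F.Q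
    linarith
  · have := min_le_left s F.Q
    linarith

theorem ultrafilter_limit [WellFoundedLT M] (a : Pnt F) {k l : ℕ} {ε s : ℝ} (hk : 1 ≤ k)
    (hε : 0 < ε) (hkε : 1 ≤ ε * k) (hQ : a.q + 4 * ε < F.Q) (hlk : l ≤ k)
    (hs : a.q + 4 * ε < s) (f : Ultrafilter (Pnt F)) (hf : V k (a.q + ε) a ∈ f) :
    ∃ w ∈ V l s a, (f : Filter (Pnt F)) ≤ nhds w := by
  set B : Set X := {x | {b : Pnt F | x ∈ supp b.z} ∈ f} with hBdef
  have hB : F.Small (a.q + ε) B := by
    intro n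
    have h1 : ⋂ x ∈ B ∩ {x | F.blk x = n}, {b : Pnt F | x ∈ supp b.z} ∈ f :=
      (Filter.biInter_mem (finite_inter B n)).2 fun x hx => hx.1
    obtain ⟨b, hb1, hb2⟩ := f.nonempty_of_mem (Filter.inter_mem h1 hf)
    have h2 : B ∩ {x | F.blk x = n} ⊆ supp b.z ∩ {x | F.blk x = n} := by
      intro x hx
      exact ⟨mem_iInter₂.1 hb1 x hx, hx.2⟩
    have h3 := ncard_le_ncard h2 (finite_inter _ n)
    exact le_trans (by exact_mod_cast h3) (b.small.mono hb2.2.le subset_rfl n)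
  have hsub : B ⊆ supp a.z ∪ F.above k := by
    intro x hx
    obtain ⟨b, hb1, hb2⟩ := f.nonempty_of_mem (Filter.inter_mem hx hf)
    exact N_supp hb2.1 hb1
  obtain ⟨w, δ, S, hwz, hwq, hkk, hBS, hδ⟩ := exists_col a hk hε hkε hQ hB hsub
  refine ⟨w, ⟨?_, ?_⟩, ?_⟩
  · rw [hwz]
    exact N_column (by omega)
  · rw [hwq]; exact hs
  · intro U hU
    obtain ⟨O, hOU, hO, hwO⟩ := mem_nhds_iff.1 hU
    obtain ⟨m, t, ht, hV⟩ := isOpen_iff.1 hO w hwO
    refine Filter.mem_of_superset ?_ (hV.trans hOU)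
    have h1 : ⋂ x ∈ {x | F.blk x < m} \ B, {b : Pnt F | x ∈ supp b.z}ᶜ ∈ f :=
      (Filter.biInter_mem ((finite_lt m).subset sdiff_subset)).2 fun x hx =>
        Ultrafilter.compl_mem_iff_notMem.2 hx.2
    have h2 : ∃ n, m ≤ n ∧ {b : Pnt F | F.t δ n ∈ supp b.z}ᶜ ∈ f := by
      have := hδ m
      unfold Cap at this
      push Not at this
      obtain ⟨n, hn, hn'⟩ := this
      exact ⟨n, hn, Ultrafilter.compl_mem_iff_notMem.2 hn'⟩
    obtain ⟨n, hn, h2⟩ := h2
    filter_upwards [h1, h2, hf] with b hb1 hb2 hb3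
    refine ⟨?_, ?_⟩
    · rw [hwz]
      refine ⟨N_mono (by omega) hb3.1, ?_, Or.inl ?_⟩
      · intro x hx
        by_cases hxB : x ∈ B
        · exact Or.inl (hBS hxB)
        · right
          by_contra hxm
          have hxm' : F.blk x < m := not_le.1 hxm
          exact mem_iInter₂.1 hb1 x ⟨hxm', hxB⟩ hx
      · intro hc
        exact hb2 (hc n hn)
    · have := hb3.2
      rw [hwq] at ht
      linarith

theorem finite_cover [WellFoundedLT M] {V' U : Set (Pnt F)}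
    (hlim : ∀ f : Ultrafilter (Pnt F), V' ∈ f → ∃ w ∈ U, (f : Filter (Pnt F)) ≤ nhds w)
    (𝒲 : Set (Set (Pnt F))) (hW : ∀ W ∈ 𝒲, IsOpen W) (hcov : U ⊆ ⋃₀ 𝒲) :
    ∃ 𝒯 ⊆ 𝒲, 𝒯.Finite ∧ V' ⊆ ⋃₀ 𝒯 := by
  by_contra hcon
  push Not at hcon
  have hne : (Filter.generate (insert V' (compl '' 𝒲))).NeBot := by
    rw [Filter.generate_neBot_iff]
    intro t ht hfin
    have h1 : {W | W ∈ 𝒲 ∧ Wᶜ ∈ t}.Finite := by
      refine Set.Finite.of_finite_image (f := compl) (hfin.subset ?_) compl_injective.injOn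
      rintro _ ⟨W, ⟨_, h⟩, rfl⟩
      exact h
    have h2 := hcon {W | W ∈ 𝒲 ∧ Wᶜ ∈ t} (fun W h => h.1) h1
    rw [not_subset] at h2
    obtain ⟨b, hb, hb'⟩ := h2
    refine ⟨b, ?_⟩
    intro A hA
    rcases ht hA with rfl | ⟨W, hW1, rfl⟩
    · exact hb
    · intro hbW
      exact hb' ⟨W, ⟨hW1, hA⟩, hbW⟩
  obtain ⟨f, hf⟩ := Ultrafilter.exists_le (Filter.generate (insert V' (compl '' 𝒲)))
  obtain ⟨w, hwU, hw⟩ := hlim f (hf (Filter.mem_generate_of_mem (mem_insert _ _)))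
  obtain ⟨W, hW1, hwW⟩ := hcov hwU
  have h1 : W ∈ f := hw ((hW W hW1).mem_nhds hwW)
  have h2 : Wᶜ ∈ f := hf (Filter.mem_generate_of_mem (mem_insert_of_mem _ ⟨W, hW1, rfl⟩))
  exact Ultrafilter.compl_mem_iff_notMem.1 h2 h1

theorem coreCompact [WellFoundedLT M] (x : Pnt F) (U : Set (Pnt F)) (hU : IsOpen U) (hx : x ∈ U) :
    ∃ V' : Set (Pnt F), IsOpen V' ∧ x ∈ V' ∧ V' ⊆ U ∧
      ∀ 𝒲 : Set (Set (Pnt F)), (∀ W ∈ 𝒲, IsOpen W) → U ⊆ ⋃₀ 𝒲 →
        ∃ 𝒯 ⊆ 𝒲, 𝒯.Finite ∧ V' ⊆ ⋃₀ 𝒯 := by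
  obtain ⟨l, s, hs, hV⟩ := isOpen_iff.1 hU x hx
  obtain ⟨ε, k, hε, hk, hlk, hkε, hQ, hs'⟩ := exists_param x hs l
  refine ⟨V k (x.q + ε) x, isOpen_V _ _ _, mem_V_self x k (by linarith), ?_, ?_⟩
  · intro b hb
    exact hV ⟨N_mono hlk hb.1, by have := hb.2; linarith⟩
  · intro 𝒲 hW hcov
    refine finite_cover (U := U) (fun f hf => ?_) 𝒲 hW hcov
    obtain ⟨w, hw, hle⟩ := ultrafilter_limit x hk hε hkε hQ hlk hs' f hf
    exact ⟨w, hV hw, hle⟩

theorem meetCont [WellFoundedLT M] (x : Pnt F) (D : Set (Pnt F)) (s : Pnt F) (hne : D.Nonempty)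
    (hdir : DirectedOn (· ≤ ·) D) (hs : IsLUB D s) (hxs : x ≤ s) :
    x ∈ closure {y : Pnt F | y ≤ x ∧ ∃ d ∈ D, y ≤ d} := by
  rw [mem_closure_iff]
  intro O hO hxO
  obtain ⟨l, t, ht, hV⟩ := isOpen_iff.1 hO x hxO
  obtain ⟨ε, k, hε, hk, hlk, hkε, hQ, ht'⟩ := exists_param x ht l
  obtain ⟨m, hm⟩ := N_open (hxs.1 k)
  obtain ⟨d, hd, hdN, hdq⟩ := conv_of_isLUB hne hdir hs (max m k) (x.q + ε)
    (lt_of_le_of_lt hxs.2 (by linarith))
  have hsub : supp d.z ⊆ supp x.z ∪ F.above k := by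
    intro p hp
    rcases N_supp hdN hp with h | h
    · exact Or.inl (supp_anti hxs h)
    · exact Or.inr (above_anti (le_max_right _ _) h)
  obtain ⟨w, δ, S, hwz, hwq, hkk, hBS, hδ⟩ := exists_col x hk hε hkε hQ
    (d.small.mono hdq.le subset_rfl) hsub
  have hwv := w.valid
  rw [hwz] at hwv
  refine ⟨w, hV ⟨?_, ?_⟩, ⟨?_, ?_⟩, d, hd, ?_, ?_⟩
  · rw [hwz]; exact N_column (by omega)
  · rw [hwq]; exact ht'
  · rw [hwz]; exact le_base hwv
  · rw [hwq]; linarith
  · rw [hwz]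
    refine le_ext_iff.2 ⟨?_, hBS, Or.inl hδ⟩
    rw [hkk]
    exact hm _ (N_mono (le_max_left _ _) hdN)
  · rw [hwq]; linarith

/-- The root point of an element. -/
def rt (x : X) : Pnt F where
  z := .root x
  q := 0
  valid := trivial
  q0 := le_rfl
  qQ := F.Qpos
  small := small_singleton x le_rfl

theorem N_root (z : Pt X M) : ∀ (l : ℕ) (x : X), l ≤ F.blk x → F.N z l (.root x) := by
  induction z with
  | root y =>
    intro l x hx
    rintro _ rfl
    exact Or.inr hx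
  | ext z β S ih =>
    intro l x hx
    refine ⟨ih _ x ((min_le_right _ _).trans hx), ?_, Or.inl (not_cap_singleton _)⟩
    rintro _ rfl
    exact Or.inr hx

theorem exists_blk (F : Frame X M) (n : ℕ) (hn : 1 ≤ n) : ∃ x, F.blk x = n := by
  obtain ⟨v, hv, _⟩ := F.room 0 F.Qpos ∅ (by intro n; simp) n hn
  exact ⟨v, hv⟩

theorem rt_mem [WellFoundedLT M] {U : Set (Pnt F)} (hU : IsOpen U) {a : Pnt F} (ha : a ∈ U)
    (ha0 : ∀ s, a.q < s → 0 < s) : ∃ l, ∀ x, l ≤ F.blk x → rt x ∈ U := by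
  obtain ⟨l, s, hs, hV⟩ := isOpen_iff.1 hU a ha
  exact ⟨l, fun x hx => hV ⟨N_root _ l x hx, ha0 s hs⟩⟩

theorem not_sober [WellFoundedLT M] : ¬ QuasiSober (Pnt F) := by
  intro hq
  have hmem : ∀ {U : Set (Pnt F)}, IsOpen U → U.Nonempty → ∃ l, ∀ x, l ≤ F.blk x → rt x ∈ U := by
    rintro U hU ⟨a, ha⟩
    exact rt_mem hU ha fun s hs => lt_of_le_of_lt a.q0 hs
  have hirr : IsIrreducible (univ : Set (Pnt F)) := by
    obtain ⟨x, _⟩ := exists_blk F 1 le_rfl
    refine ⟨⟨rt x, mem_univ _⟩, ?_⟩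
    intro U U' hU hU' h1 h2
    rw [univ_inter] at h1 h2
    obtain ⟨l, hl⟩ := hmem hU h1
    obtain ⟨l', hl'⟩ := hmem hU' h2
    obtain ⟨x, hx⟩ := exists_blk F (l + l' + 1) (by omega)
    exact ⟨rt x, mem_univ _, hl x (by omega), hl' x (by omega)⟩
  obtain ⟨g, hg⟩ := hq.sober hirr isClosed_univ
  have hle : ∀ x, (rt x : Pnt F) ≤ g := by
    intro x
    have h1 : (rt x : Pnt F) ∈ closure {g} := by
      rw [hg.def]; exact mem_univ _
    rw [Topology.IsScott.closure_singleton] at h1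
    exact h1
  obtain ⟨x, hx⟩ := exists_blk F 1 le_rfl
  obtain ⟨y, hy⟩ := exists_blk F 2 (by norm_num)
  obtain ⟨p, hp⟩ := supp_nonempty g.valid
  have h1 : p = x := supp_anti (hle x) hp
  have h2 : p = y := supp_anti (hle y) hp
  rw [← h1, h2] at hx
  omega

end Pool.Agent.Helper884.Sparse
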