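import Mathlib

set_option autoImplicit false
open Set

namespace Pool.Agent.Helper884.SparseFrame

/-- Functions choosing an element of each block. -/
def Fn : Type := ∀ m : ℕ, Fin (2 ^ m)

noncomputable instance : LinearOrder Fn := IsWellOrder.linearOrder (WellOrderingRel : Fn → Fn → Prop)

instance : WellFoundedLT Fn := ⟨(inferInstance : IsWellFounded Fn WellOrderingRel).wf⟩

/-- A slalom. -/
def Slalom (q : ℝ) (φ : ∀ m : ℕ, Finset (Fin (2 ^ m))) : Prop :=
  ∀ m : ℕ, ((φ m).card : ℝ) ≤ 2 ^ (q * m)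

/-- The slalom captures the function almost everywhere. -/
def Capt (φ : ∀ m : ℕ, Finset (Fin (2 ^ m))) (f : Fn) : Prop := ∃ m0, ∀ m, m0 ≤ m → f m ∈ φ m

/-- All functions of the set are captured by one slalom. -/
def CaptAll (q : ℝ) (A : Set Fn) : Prop := ∃ φ, Slalom q φ ∧ ∀ f ∈ A, Capt φ f

theorem not_captAll_univ {q : ℝ} (hq : q < 1) : ¬ CaptAll q univ := by
  rintro ⟨φ, hφ, h⟩
  have hex : ∀ m : ℕ, ∃ y : Fin (2 ^ m), 1 ≤ m → y ∉ φ m := by
    intro m
    by_cases hm : 1 ≤ m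
    · have h1 : (φ m).card < (Finset.univ : Finset (Fin (2 ^ m))).card := by
        rw [Finset.card_univ, Fintype.card_fin]
        have h2 : (2 : ℝ) ^ (q * m) < 2 ^ (m : ℝ) := by
          refine Real.rpow_lt_rpow_of_exponent_lt (by norm_num) ?_
          have : (0 : ℝ) < m := by exact_mod_cast hm
          nlinarith
        rw [Real.rpow_natCast] at h2
        exact_mod_cast lt_of_le_of_lt (hφ m) h2
      obtain ⟨y, _, hy⟩ := Finset.exists_mem_notMem_of_card_lt_card h1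
      exact ⟨y, fun _ => hy⟩
    · exact ⟨⟨0, by positivity⟩, fun h => absurd h hm⟩
  choose f hf using hex
  obtain ⟨m0, hm0⟩ := h f (mem_univ _)
  exact hf (max m0 1) (le_max_right _ _) (hm0 _ (le_max_left _ _))

theorem captAll_insert {q q' : ℝ} (hq : q < q') {A : Set Fn} (h : CaptAll q A) (b : Fn)
    (hq0 : 0 ≤ q) : CaptAll q' (insert b A) := by
  obtain ⟨φ, hφ, h⟩ := h
  obtain ⟨m0, hm0⟩ := exists_nat_gt (1 / (q' - q))
  have hqq : 0 < q' - q := by linarith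
  rw [div_lt_iff₀ hqq] at hm0
  classical
  refine ⟨fun m => if m < m0 then ∅ else insert (b m) (φ m), ?_, ?_⟩
  · intro m
    by_cases hm : m < m0
    · simp only [hm, if_true, Finset.card_empty, Nat.cast_zero]
      positivity
    · simp only [hm, if_false]
      have h1 : ((insert (b m) (φ m)).card : ℝ) ≤ (φ m).card + 1 := by
        exact_mod_cast Finset.card_insert_le _ _
      have h2 := hφ m
      have h3 : (1 : ℝ) ≤ 2 ^ (q * m) := Real.one_le_rpow (by norm_num) (by positivity)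
      have hmm : (m0 : ℝ) ≤ m := by exact_mod_cast not_lt.1 hm
      have h4 : (2 : ℝ) * 2 ^ (q * m) ≤ 2 ^ (q' * m) := by
        have : (2 : ℝ) * 2 ^ (q * m) = 2 ^ (1 + q * m) := by
          rw [Real.rpow_add (by norm_num), Real.rpow_one]
        rw [this]
        refine Real.rpow_le_rpow_of_exponent_le (by norm_num) ?_
        nlinarith
      linarith
  · rintro f (rfl | hf)
    · refine ⟨m0, fun m hm => ?_⟩
      simp only [not_lt.2 hm, if_false]
      exact Finset.mem_insert_self _ _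
    · obtain ⟨m1, hm1⟩ := h f hf
      refine ⟨max m0 m1, fun m hm => ?_⟩
      have hm' : ¬ m < m0 := not_lt.2 ((le_max_left _ _).trans hm)
      simp only [hm', if_false]
      exact Finset.mem_insert_of_mem (hm1 m ((le_max_right _ _).trans hm))

/-- A set of functions which is not captured although all its initial segments are. -/
theorem exists_min : ∃ (M : Set Fn) (r : ℝ), 0 < r ∧ r < 1 ∧ ¬ CaptAll r M ∧
    ∀ b ∈ M, ∀ q, 0 < q → q < 1 → CaptAll q {f | f < b} := by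
  by_cases hbad : ∃ b : Fn, ∃ q : ℝ, 0 < q ∧ q < 1 ∧ ¬ CaptAll q {f | f < b}
  · obtain ⟨b, ⟨q, hq0, hq1, hb⟩, hmin⟩ := (wellFounded_lt (α := Fn)).has_min
      {b : Fn | ∃ q : ℝ, 0 < q ∧ q < 1 ∧ ¬ CaptAll q {f | f < b}} hbad
    refine ⟨{f | f < b}, q, hq0, hq1, hb, fun c hc p hp0 hp1 => ?_⟩
    by_contra hcon
    exact hmin c ⟨p, hp0, hp1, hcon⟩ hc
  · push Not at hbad
    exact ⟨univ, 1 / 2, by norm_num, by norm_num, not_captAll_univ (by norm_num),
      fun b _ q h0 h1 => hbad b q h0 h1⟩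

theorem exists_slaloms : ∃ (M : Set Fn) (r : ℝ) (G : Fn → ∀ m : ℕ, Finset (Fin (2 ^ m))),
    0 < r ∧ r < 1 ∧ ¬ CaptAll r M ∧ (∀ b ∈ M, Slalom (r / 2) (G b)) ∧
    ∀ b ∈ M, ∀ f, f ≤ b → Capt (G b) f := by
  obtain ⟨M, r, h0, h1, h2, h3⟩ := exists_min
  have hex : ∀ b : Fn, ∃ φ : ∀ m : ℕ, Finset (Fin (2 ^ m)), b ∈ M →
      Slalom (r / 2) φ ∧ ∀ f, f ≤ b → Capt φ f := by
    intro b
    by_cases hb : b ∈ M
    · obtain ⟨φ, h4, h5⟩ := captAll_insert (q := r / 4) (q' := r / 2) (by linarith)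
        (h3 b hb (r / 4) (by linarith) (by linarith)) b (by linarith)
      refine ⟨φ, fun _ => ⟨h4, fun f hf => h5 f ?_⟩⟩
      rcases hf.lt_or_eq with h | h
      · exact Or.inr h
      · exact Or.inl h
    · exact ⟨fun _ => ∅, fun h => absurd h hb⟩
  choose G hG using hex
  exact ⟨M, r, G, h0, h1, h2, fun b hb => (hG b hb).1, fun b hb => (hG b hb).2⟩

/-- Nodes of the tree of codes. -/
def Nd : Type := Σ n : ℕ, ∀ m : Fin n, Finset (Fin (2 ^ (m : ℕ))) × Fin (2 ^ (m : ℕ))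

/-- The slalom component of a node. -/
def comp (p : Nd) (m : ℕ) : Finset (Fin (2 ^ m)) :=
  if h : m < p.1 then (p.2 ⟨m, h⟩).1 else ∅

/-- The node of level `n` on the branch coding `(φ, f)`. -/
def node (φ : ∀ m : ℕ, Finset (Fin (2 ^ m))) (f : Fn) (n : ℕ) : Nd :=
  ⟨n, fun m => (φ m, f m)⟩

theorem comp_node (φ : ∀ m : ℕ, Finset (Fin (2 ^ m))) (f : Fn) {n m : ℕ} (h : m < n) :
    comp (node φ f n) m = φ m := by
  unfold comp node
  rw [dif_pos (show m < n from h)]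

theorem finite_level (n : ℕ) : {x : Nd | x.1 = n}.Finite := by
  refine (finite_range (Sigma.mk n : _ → Nd)).subset ?_
  rintro ⟨k, g⟩ rfl
  exact ⟨g, rfl⟩

theorem node_ne {φ ψ : ∀ m : ℕ, Finset (Fin (2 ^ m))} {f g : Fn} {m n : ℕ} (h : f m ≠ g m)
    (hn : m < n) : node φ f n ≠ node ψ g n := by
  intro he
  unfold node at he
  have h1 := eq_of_heq (Sigma.mk.inj he).2
  have h2 := congrFun h1 ⟨m, hn⟩
  exact h (congrArg Prod.snd h2)

theorem le_ncard_level (n : ℕ) : 2 ^ n ≤ {x : Nd | x.1 = n}.ncard := by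
  classical
  let e : (Fin n → Bool) → Nd := fun g => ⟨n, fun m => (if g m then Finset.univ else ∅, ⟨0, by positivity⟩)⟩
  have he : Function.Injective e := by
    intro g g' h
    have h1 := eq_of_heq (Sigma.mk.inj h).2
    funext m
    have h2 := congrArg Prod.fst (congrFun h1 m)
    simp only at h2
    have hne : (Finset.univ : Finset (Fin (2 ^ (m : ℕ)))) ≠ ∅ := by
      intro hcon
      have : (⟨0, by positivity⟩ : Fin (2 ^ (m : ℕ))) ∈ (∅ : Finset (Fin (2 ^ (m : ℕ)))) := by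
        rw [← hcon]; exact Finset.mem_univ _
      exact absurd this (Finset.notMem_empty _)
    cases hg : g m <;> cases hg' : g' m <;> simp_all
  have h1 : (range e).ncard = 2 ^ n := by
    rw [← image_univ, ncard_image_of_injective _ he, ncard_univ, Nat.card_eq_fintype_card]
    simp
  rw [← h1]
  refine ncard_le_ncard ?_ (finite_level n)
  rintro _ ⟨g, rfl⟩
  rfl

/-- The slalom read off from a small set of nodes. -/
noncomputable def read (N : ℕ → ℕ) (m0 : ℕ) (S : Set Nd) (m : ℕ) : Finset (Fin (2 ^ m)) :=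
  open Classical in
  if m < m0 then ∅ else
    ((finite_level (m + 1)).subset (inter_subset_right (s := S))).toFinset.biUnion
      fun p => if (comp p m).card ≤ N m then comp p m else ∅

theorem mem_read {N : ℕ → ℕ} {m0 : ℕ} {S : Set Nd} {m : ℕ} (hm : m0 ≤ m) {y : Fin (2 ^ m)} {p : Nd}
    (hp : p ∈ S) (hp1 : p.1 = m + 1) (hN : (comp p m).card ≤ N m) (hy : y ∈ comp p m) :
    y ∈ read N m0 S m := by
  classical
  unfold read
  rw [if_neg (not_lt.2 hm)]
  refine Finset.mem_biUnion.2 ⟨p, ?_, ?_⟩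
  · rw [Set.Finite.mem_toFinset]
    exact ⟨hp, hp1⟩
  · rw [if_pos hN]; exact hy

theorem card_read (N : ℕ → ℕ) (m0 : ℕ) (S : Set Nd) (m : ℕ) :
    (read N m0 S m).card ≤ (if m < m0 then 0 else (S ∩ {x : Nd | x.1 = m + 1}).ncard * N m) := by
  classical
  unfold read
  by_cases hm : m < m0
  · simp [hm]
  · rw [if_neg hm, if_neg hm]
    rw [ncard_eq_toFinset_card _ ((finite_level (m + 1)).subset (inter_subset_right (s := S)))]
    refine Finset.card_biUnion_le_card_mul _ _ _ fun p _ => ?_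
    by_cases h : (comp p m).card ≤ N m
    · rw [if_pos h]; exact h
    · rw [if_neg h]; simp

theorem bdd {M : Set Fn} {r : ℝ} {G : Fn → ∀ m : ℕ, Finset (Fin (2 ^ m))} (_h0 : 0 < r) (h1 : r < 1)
    (hM : ¬ CaptAll r M) (hG : ∀ b ∈ M, Slalom (r / 2) (G b))
    (hcap : ∀ b ∈ M, ∀ f, f ≤ b → Capt (G b) f) {q : ℝ} (hq : q < r / 2) (S : Set Nd)
    (hS : ∀ n : ℕ, ((S ∩ {x : Nd | x.1 = n}).ncard : ℝ) ≤ 2 ^ (q * n)) :
    ∃ γ ∈ M, ∀ b ∈ M, ∀ m, (∀ n, m ≤ n → node (G b) b n ∈ S) → b < γ := by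
  by_contra hcon
  push Not at hcon
  obtain ⟨m0, hm0⟩ := exists_nat_gt (1 / (r / 2 - q))
  have hqq : 0 < r / 2 - q := by linarith
  rw [div_lt_iff₀ hqq] at hm0
  refine hM ⟨read (fun m => ⌊(2 : ℝ) ^ (r / 2 * m)⌋₊) m0 S, ?_, ?_⟩
  · intro m
    have h2 := card_read (fun m => ⌊(2 : ℝ) ^ (r / 2 * m)⌋₊) m0 S m
    by_cases hm : m < m0
    · rw [if_pos hm] at h2
      have : ((read (fun m => ⌊(2 : ℝ) ^ (r / 2 * m)⌋₊) m0 S m).card : ℝ) = 0 := by
        exact_mod_cast Nat.le_zero.1 h2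
      rw [this]; positivity
    · rw [if_neg hm] at h2
      have h3 : ((read (fun m => ⌊(2 : ℝ) ^ (r / 2 * m)⌋₊) m0 S m).card : ℝ) ≤
          (S ∩ {x : Nd | x.1 = m + 1}).ncard * ⌊(2 : ℝ) ^ (r / 2 * m)⌋₊ := by exact_mod_cast h2
      have h4 : ((⌊(2 : ℝ) ^ (r / 2 * m)⌋₊ : ℕ) : ℝ) ≤ 2 ^ (r / 2 * m) :=
        Nat.floor_le (by positivity)
      have h5 := hS (m + 1)
      have hmm : (m0 : ℝ) ≤ m := by exact_mod_cast not_lt.1 hm
      calc ((read (fun m => ⌊(2 : ℝ) ^ (r / 2 * m)⌋₊) m0 S m).card : ℝ)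
          ≤ (S ∩ {x : Nd | x.1 = m + 1}).ncard * ⌊(2 : ℝ) ^ (r / 2 * m)⌋₊ := h3
        _ ≤ 2 ^ (q * (m + 1 : ℕ)) * 2 ^ (r / 2 * m) := by gcongr
        _ = 2 ^ (q * (m + 1 : ℕ) + r / 2 * m) := by rw [Real.rpow_add (by norm_num)]
        _ ≤ 2 ^ (r * m) := by
          refine Real.rpow_le_rpow_of_exponent_le (by norm_num) ?_
          push_cast
          nlinarith
  · intro f hf
    obtain ⟨b, hb, m1, hm1, hfb⟩ := hcon f hf
    obtain ⟨m2, hm2⟩ := hcap b hb f hfb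
    refine ⟨max m0 (max m1 m2), fun m hm => ?_⟩
    have k1 : m0 ≤ m := (le_max_left _ _).trans hm
    have k2 : m1 ≤ m := ((le_max_left _ _).trans (le_max_right _ _)).trans hm
    have k3 : m2 ≤ m := ((le_max_right _ _).trans (le_max_right _ _)).trans hm
    refine mem_read k1 (hm1 (m + 1) (by omega)) rfl ?_ ?_
    · rw [comp_node _ _ (Nat.lt_succ_self m)]
      exact Nat.le_floor (hG b hb m)
    · rw [comp_node _ _ (Nat.lt_succ_self m)]
      exact hm2 m k3

theorem room {q : ℝ} (hq : q < 1) (S : Set Nd)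
    (hS : ∀ n : ℕ, ((S ∩ {x : Nd | x.1 = n}).ncard : ℝ) ≤ 2 ^ (q * n)) (n : ℕ) (hn : 1 ≤ n) :
    ∃ v : Nd, v.1 = n ∧ v ∉ S := by
  by_contra hcon
  push Not at hcon
  have h1 : S ∩ {x : Nd | x.1 = n} = {x : Nd | x.1 = n} := by
    ext x
    exact ⟨fun h => h.2, fun h => ⟨hcon x h, h⟩⟩
  have h2 := hS n
  rw [h1] at h2
  have h3 : ((2 : ℕ) ^ n : ℝ) ≤ {x : Nd | x.1 = n}.ncard := by exact_mod_cast le_ncard_level n
  have h4 : (2 : ℝ) ^ (q * n) < 2 ^ (n : ℝ) := by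
    refine Real.rpow_lt_rpow_of_exponent_lt (by norm_num) ?_
    have : (0 : ℝ) < n := by exact_mod_cast hn
    nlinarith
  rw [Real.rpow_natCast] at h4
  push_cast at h3
  linarith

end Pool.Agent.Helper884.SparseFrame
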